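import Pool.Agent.TreeFPP.Aff

set_option autoImplicit false

/-!
# The supremum of the fixed-point proportions is attained
-/

namespace Pool.Agent.Helper84.Fpp

open Filter Pool.Agent.TreeFPP

variable {d : ℕ}

/-- ultralimits of automorphisms -/
theorem exists_ultralimit (U : Ultrafilter ℕ) (h : ℕ → Equiv.Perm (List (Fin d)))
    (hh : ∀ k, h k ∈ TreeAut d) :
    ∃ g ∈ TreeAut d, ∀ m : ℕ, ∀ᶠ k in (U : Filter ℕ), ∀ w : List (Fin d), w.length = m →
      h k w = g w := by
  classical
  have key : ∀ (h : ℕ → Equiv.Perm (List (Fin d))), (∀ k, h k ∈ TreeAut d) →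
      ∀ w : List (Fin d), ∃ u : List (Fin d), ∀ᶠ k in (U : Filter ℕ), h k w = u := by
    intro h hh w
    haveI hfin : Finite {u : List (Fin d) // u.length = w.length} :=
      (List.finite_length_eq (Fin d) w.length).to_subtype
    have h1 : ∀ᶠ k in (U : Filter ℕ), ∃ u : {u : List (Fin d) // u.length = w.length},
        h k w = u := Eventually.of_forall fun k => ⟨⟨h k w, aut_length (hh k) w⟩, rfl⟩
    rw [Ultrafilter.eventually_exists_iff] at h1
    obtain ⟨u, hu⟩ := h1
    exact ⟨u, hu⟩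
  have hh' : ∀ k, (h k)⁻¹ ∈ TreeAut d := fun k => (TreeAut d).inv_mem (hh k)
  choose f hf using key h hh
  choose f' hf' using key (fun k => (h k)⁻¹) hh'
  have h1 : ∀ w, f' (f w) = w := by
    intro w
    obtain ⟨k, hk1, hk2⟩ := ((hf w).and (hf' (f w))).exists
    rw [← hk2, ← hk1]
    exact (h k).symm_apply_apply w
  have h2 : ∀ w, f (f' w) = w := by
    intro w
    obtain ⟨k, hk1, hk2⟩ := ((hf' w).and (hf (f' w))).exists
    rw [← hk2, ← hk1]
    exact (h k).apply_symm_apply w
  refine ⟨⟨f, f', h1, h2⟩, ?_, ?_⟩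
  · intro w
    show f w.dropLast = (f w).dropLast
    obtain ⟨k, hk1, hk2⟩ := ((hf w).and (hf w.dropLast)).exists
    rw [← hk1, ← hk2]
    exact hh k w
  · intro m
    have hfin := List.finite_length_eq (Fin d) m
    have h3 : ∀ᶠ k in (U : Filter ℕ), ∀ w ∈ {l : List (Fin d) | l.length = m}, h k w = f w := by
      rw [Filter.eventually_all_finite hfin]
      intro w _
      exact hf w
    filter_upwards [h3] with k hk w hw
    exact hk w hw

/-- the ultralimit of a sequence of groups -/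
def limGroup (U : Ultrafilter ℕ) (G : ℕ → Subgroup (Equiv.Perm (List (Fin d)))) :
    Subgroup (Equiv.Perm (List (Fin d))) where
  carrier := {g | g ∈ TreeAut d ∧ ∀ m : ℕ, ∀ᶠ k in (U : Filter ℕ), ∃ h ∈ G k,
    ∀ w : List (Fin d), w.length = m → h w = g w}
  one_mem' := ⟨(TreeAut d).one_mem, fun m => Eventually.of_forall fun k =>
    ⟨1, (G k).one_mem, fun w _ => rfl⟩⟩
  mul_mem' := by
    rintro a b ⟨ha, ha'⟩ ⟨hb, hb'⟩
    refine ⟨(TreeAut d).mul_mem ha hb, fun m => ?_⟩
    filter_upwards [ha' m, hb' m] with k hka hkb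
    obtain ⟨x, hx, hxw⟩ := hka
    obtain ⟨y, hy, hyw⟩ := hkb
    refine ⟨x * y, (G k).mul_mem hx hy, fun w hw => ?_⟩
    rw [Equiv.Perm.mul_apply, Equiv.Perm.mul_apply, hyw w hw, hxw _ (by rw [aut_length hb, hw])]
  inv_mem' := by
    rintro a ⟨ha, ha'⟩
    refine ⟨(TreeAut d).inv_mem ha, fun m => ?_⟩
    filter_upwards [ha' m] with k hka
    obtain ⟨x, hx, hxw⟩ := hka
    refine ⟨x⁻¹, (G k).inv_mem hx, fun w hw => ?_⟩
    have h1 : (a⁻¹ w).length = m := by rw [aut_length ((TreeAut d).inv_mem ha), hw]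
    have h2 := hxw (a⁻¹ w) h1
    have h3 : a (a⁻¹ w) = w := a.apply_symm_apply w
    rw [h3] at h2
    rw [Equiv.Perm.inv_eq_iff_eq]
    exact h2.symm

lemma limGroup_le (U : Ultrafilter ℕ) (G : ℕ → Subgroup (Equiv.Perm (List (Fin d)))) :
    limGroup U G ≤ TreeAut d := fun _ hg => hg.1

/-- ultralimits of elements lie in the ultralimit of the groups -/
theorem exists_mem_lim (U : Ultrafilter ℕ) (G : ℕ → Subgroup (Equiv.Perm (List (Fin d))))
    (h : ℕ → Equiv.Perm (List (Fin d))) (hh : ∀ k, h k ∈ TreeAut d)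
    (hG : ∀ᶠ k in (U : Filter ℕ), h k ∈ G k) :
    ∃ g ∈ limGroup U G, ∀ m : ℕ, ∀ᶠ k in (U : Filter ℕ), ∀ w : List (Fin d), w.length = m →
      h k w = g w := by
  obtain ⟨g, hg, hg'⟩ := exists_ultralimit U h hh
  refine ⟨g, ⟨hg, fun m => ?_⟩, hg'⟩
  filter_upwards [hG, hg' m] with k h1 h2
  exact ⟨h k, h1, h2⟩

/-- the ultralimit is level transitive -/
theorem limGroup_transitive (U : Ultrafilter ℕ)
    (G : ℕ → Subgroup (Equiv.Perm (List (Fin d)))) (hG : ∀ k, G k ≤ TreeAut d)
    (ht : ∀ k, LevelTransitive (G k)) : LevelTransitive (limGroup U G) := by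
  intro u w huw
  choose h hh using fun k => ht k u w huw
  obtain ⟨g, hg, hg'⟩ := exists_mem_lim U G h (fun k => hG k (hh k).1)
    (Eventually.of_forall fun k => (hh k).1)
  refine ⟨g, hg, ?_⟩
  obtain ⟨k, hk⟩ := (hg' u.length).exists
  rw [← hk u rfl]
  exact (hh k).2

/-- the level groups stabilise -/
theorem levelPerms_lim (U : Ultrafilter ℕ)
    (G : ℕ → Subgroup (Equiv.Perm (List (Fin d)))) (hG : ∀ k, G k ≤ TreeAut d) (n : ℕ) :
    ∀ᶠ k in (U : Filter ℕ), levelPerms (limGroup U G) n = levelPerms (G k) n := by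
  classical
  haveI hfin : Finite {u : List (Fin d) // u.length = n} :=
    (List.finite_length_eq (Fin d) n).to_subtype
  have h1 : ∀ σ : Equiv.Perm {w : List (Fin d) // w.length = n},
      ∀ᶠ k in (U : Filter ℕ), (σ ∈ levelPerms (limGroup U G) n ↔ σ ∈ levelPerms (G k) n) := by
    intro σ
    by_cases hσ : σ ∈ levelPerms (limGroup U G) n
    · obtain ⟨g, hg, hgσ⟩ := hσ
      filter_upwards [hg.2 n] with k hk
      obtain ⟨h, hh, hw⟩ := hk
      refine ⟨fun _ => ⟨h, hh, fun w => ?_⟩, fun _ => ⟨g, hg, hgσ⟩⟩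
      rw [hgσ w, hw w w.2]
    · by_contra hcon
      rw [← Ultrafilter.eventually_not] at hcon
      have h2 : ∀ᶠ k in (U : Filter ℕ), σ ∈ levelPerms (G k) n := by
        filter_upwards [hcon] with k hk
        by_contra h3
        exact hk ⟨fun h => absurd h hσ, fun h => absurd h h3⟩
      apply hσ
      let h : ℕ → Equiv.Perm (List (Fin d)) := fun k =>
        if hk : σ ∈ levelPerms (G k) n then hk.choose else 1
      have hspec : ∀ k, σ ∈ levelPerms (G k) n → h k ∈ G k ∧ ∀ w, (σ w : List (Fin d)) = h k w := by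
        intro k hk
        simp only [h, dif_pos hk]
        exact hk.choose_spec
      have hh : ∀ k, h k ∈ TreeAut d := by
        intro k
        by_cases hk : σ ∈ levelPerms (G k) n
        · exact hG k (hspec k hk).1
        · simp only [h, dif_neg hk]
          exact (TreeAut d).one_mem
      obtain ⟨g, hg, hg'⟩ := exists_mem_lim U G h hh (by
        filter_upwards [h2] with k hk
        exact (hspec k hk).1)
      refine ⟨g, hg, fun w => ?_⟩
      obtain ⟨k, hk1, hk2⟩ := (h2.and (hg' n)).exists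
      rw [(hspec k hk1).2 w]
      exact hk2 w w.2
  have h2 := Filter.eventually_all.mpr h1
  filter_upwards [h2] with k hk
  ext σ
  exact hk σ

/-- every group has a fixed-point proportion -/
theorem exists_hasFPP {G : Subgroup (Equiv.Perm (List (Fin d)))} (hG : G ≤ TreeAut d) :
    ∃ a, HasFPP G a ∧ ∀ n, a ≤ fixRatio G n := by
  have hbdd : BddBelow (Set.range (fixRatio G)) := by
    refine ⟨0, ?_⟩
    rintro _ ⟨n, rfl⟩
    unfold fixRatio
    positivity
  refine ⟨⨅ n, fixRatio G n, tendsto_atTop_ciInf (fixRatio_antitone hG) hbdd, fun n => ?_⟩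
  exact ciInf_le hbdd n

theorem le_fixRatio {G : Subgroup (Equiv.Perm (List (Fin d)))} (hG : G ≤ TreeAut d) {a : ℝ}
    (ha : HasFPP G a) (n : ℕ) : a ≤ fixRatio G n := by
  obtain ⟨b, hb, hb'⟩ := exists_hasFPP hG
  rw [tendsto_nhds_unique ha hb]
  exact hb' n

/-- the whole group is level transitive -/
theorem treeAut_transitive : LevelTransitive (TreeAut d) := by
  intro u w h
  refine ⟨letterPerm (fun k => if hk : k < w.length ∧ k < u.length then
    Equiv.swap (u[k]'hk.2) (w[k]'hk.1) else 1), letterPerm_mem _, ?_⟩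
  rw [letterPerm_apply]
  apply List.ext_getElem
  · simp [h]
  · intro k h1 h2
    have h3 : k < u.length := by rw [h]; exact h2
    simp [h2, h3]

/-- the supremum is attained -/
theorem exists_greatest (hne : (fppSpectrum d).Nonempty) (hbd : BddAbove (fppSpectrum d)) :
    ∃ a, IsGreatest (fppSpectrum d) a := by
  set α := sSup (fppSpectrum d) with hα
  refine ⟨α, ?_, fun a ha => le_csSup hbd ha⟩
  have h1 : ∀ k : ℕ, ∃ G : Subgroup (Equiv.Perm (List (Fin d))), G ≤ TreeAut d ∧
      LevelTransitive G ∧ ∀ n, α - 1 / ((k : ℝ) + 1) ≤ fixRatio G n := by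
    intro k
    obtain ⟨a, ⟨G, hG, hGt, hGa⟩, hlt⟩ := exists_lt_of_lt_csSup hne
      (show α - 1 / ((k : ℝ) + 1) < sSup (fppSpectrum d) by
        rw [← hα]
        have : (0 : ℝ) < 1 / ((k : ℝ) + 1) := by positivity
        linarith)
    exact ⟨G, hG, hGt, fun n => hlt.le.trans (le_fixRatio hG hGa n)⟩
  choose G hG hGt hGa using h1
  let U : Ultrafilter ℕ := hyperfilter ℕ
  have hU : (U : Filter ℕ) ≤ atTop := by
    rw [← Nat.cofinite_eq_atTop]
    exact hyperfilter_le_cofinite
  obtain ⟨a, ha, ha'⟩ := exists_hasFPP (limGroup_le U G)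
  have haS : a ∈ fppSpectrum d := ⟨limGroup U G, limGroup_le U G, limGroup_transitive U G hG hGt,
    ha⟩
  have h2 : ∀ n, α ≤ fixRatio (limGroup U G) n := by
    intro n
    have h3 : ∀ᶠ k : ℕ in (U : Filter ℕ),
        α - 1 / ((k : ℝ) + 1) ≤ fixRatio (limGroup U G) n := by
      filter_upwards [levelPerms_lim U G hG n] with k hk
      have : fixRatio (limGroup U G) n = fixRatio (G k) n := by
        unfold fixRatio
        rw [hk]
      rw [this]
      exact hGa k n
    have h4 : Tendsto (fun k : ℕ => α - 1 / ((k : ℝ) + 1)) (U : Filter ℕ) (nhds (α - 0)) :=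
      (tendsto_const_nhds.sub tendsto_one_div_add_atTop_nhds_zero_nat).mono_left hU
    rw [sub_zero] at h4
    exact le_of_tendsto h4 h3
  have h5 : α ≤ a := ge_of_tendsto ha (Eventually.of_forall h2)
  have h6 : a ≤ α := le_csSup hbd haS
  rw [le_antisymm h5 h6]
  exact haS

end Pool.Agent.Helper84.Fpp
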