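import Pool.Agent.Helper84.Fpp.Count
import Pool.Agent.Helper84.Fpp.Compact
import Pool.Agent.TreeFPP.Agl3
import Pool.Agent.TreeFPP.Strict

set_option autoImplicit false

/-!
# The maximal fixed-point proportion
-/

namespace Pool.Agent.Helper84.Fpp

open Filter Finset Pool.Agent.TreeFPP

variable {d : ℕ}

/-- the partial sums of the geometric series -/
lemma sum_cw (hd : 2 ≤ d) (n : ℕ) : ∑ h ∈ range n, cw d (h + 1) =
    (d : ℝ) / ((d : ℝ) ^ 2 - 1) * (1 - (1 / (d : ℝ) ^ 2) ^ n) := by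
  have hd' : (2 : ℝ) ≤ d := by exact_mod_cast hd
  have h1 : (d : ℝ) ^ 2 - 1 ≠ 0 := by nlinarith
  have h2 : (d : ℝ) ≠ 0 := by linarith
  induction n with
  | zero => simp
  | succ n ih =>
    rw [Finset.sum_range_succ, ih, cw_succ]
    have key : ∀ t : ℝ, (d : ℝ) / ((d : ℝ) ^ 2 - 1) * (1 - t) + d * t / (d : ℝ) ^ 2 =
        (d : ℝ) / ((d : ℝ) ^ 2 - 1) * (1 - t * (1 / (d : ℝ) ^ 2)) := by
      intro t
      field_simp
      ring
    have e : (d : ℝ) / ((d : ℝ) ^ 2) ^ (n + 1) = d * (1 / (d : ℝ) ^ 2) ^ n / (d : ℝ) ^ 2 := by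
      rw [div_pow, one_pow, pow_succ]
      field_simp
    rw [e, pow_succ]
    exact key _

/-- the upper bound for the fixed-point proportion -/
theorem fpp_le (hd : 2 ≤ d) {G : Subgroup (Equiv.Perm (List (Fin d)))}
    (hG : G ≤ TreeAut d) (hGt : LevelTransitive G) {a : ℝ} (ha : HasFPP G a) :
    a ≤ ((d : ℝ) ^ 2 - d - 1) / ((d : ℝ) ^ 2 - 1) := by
  have hd' : (2 : ℝ) ≤ d := by exact_mod_cast hd
  have h1 : (d : ℝ) ^ 2 - 1 ≠ 0 := by nlinarith
  have h3 : ((d : ℝ) ^ 2 - d - 1) / ((d : ℝ) ^ 2 - 1) =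
      1 - (d : ℝ) / ((d : ℝ) ^ 2 - 1) * (1 - 0) := by
    field_simp
    ring
  rw [h3]
  have h4 : Tendsto (fun n : ℕ => 1 - (d : ℝ) / ((d : ℝ) ^ 2 - 1) *
      (1 - (1 / (d : ℝ) ^ 2) ^ n)) atTop (nhds (1 - (d : ℝ) / ((d : ℝ) ^ 2 - 1) * (1 - 0))) := by
    refine tendsto_const_nhds.sub (Tendsto.const_mul _ (tendsto_const_nhds.sub ?_))
    apply tendsto_pow_atTop_nhds_zero_of_lt_one
    · positivity
    · rw [div_lt_one (by positivity)]
      nlinarith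
  refine le_of_tendsto_of_tendsto ha h4 (Eventually.of_forall fun n => ?_)
  have := fixRatio_le hd hG hGt n
  rwa [sum_cw hd] at this

/-- the maximal fixed-point proportion -/
theorem max_proportion (d : ℕ) (hd : 2 ≤ d) : ∃ a : ℝ, IsGreatest (fppSpectrum d) a ∧
    (IsPrimePow d → a = ((d : ℝ) ^ 2 - d - 1) / ((d : ℝ) ^ 2 - 1)) ∧
    (¬ IsPrimePow d → a ≤ 1 - ((d : ℝ) - 1) / (d * (d - 2))) := by
  have hne : (fppSpectrum d).Nonempty := by
    obtain ⟨a, ha, -⟩ := exists_hasFPP (le_refl (TreeAut d))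
    exact ⟨a, TreeAut d, le_rfl, treeAut_transitive, ha⟩
  have hub : ∀ a ∈ fppSpectrum d, a ≤ ((d : ℝ) ^ 2 - d - 1) / ((d : ℝ) ^ 2 - 1) := by
    rintro a ⟨G, hG, hGt, ha⟩
    exact fpp_le hd hG hGt ha
  obtain ⟨a, ha⟩ := exists_greatest hne ⟨_, hub⟩
  refine ⟨a, ha, ?_, ?_⟩
  · intro hpp
    exact le_antisymm (hub a ha.1) (ha.2 (mem_spectrum_max d hpp))
  · intro hpp
    have hd3 : 3 ≤ d := by
      rcases Nat.lt_or_ge d 3 with h | h
      · exfalso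
        have : d = 2 := by omega
        subst this
        exact hpp Nat.prime_two.isPrimePow
      · exact h
    obtain ⟨G, hG, hGt, hGa⟩ := ha.1
    exact (le_fixRatio hG hGa 1).trans (fixRatio_one_le hG hGt hd3 hpp)

end Pool.Agent.Helper84.Fpp
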