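import Pool.Agent.Helper84.Fpp.CountV
import Pool.Agent.Helper84.Fpp.Max

set_option autoImplicit false

/-!
# Groups acting on the binary tree with prescribed fixed-point proportion
-/

namespace Pool.Agent.Helper84.Fpp

open Filter Pool.Agent.TreeFPP

/-- the permutation given by a portrait -/
def actPerm (β : Po) : Equiv.Perm (List (Fin 2)) where
  toFun := act β
  invFun := act (pinv β)
  left_inv := act_pinv_act β
  right_inv := act_act_pinv β

lemma actPerm_mem (β : Po) : actPerm β ∈ TreeAut 2 := fun w => act_dropLast β w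

/-- the group of constrained portraits -/
def grp (ω : ℕ → Bool) (J : ℕ) : Subgroup (Equiv.Perm (List (Fin 2))) where
  carrier := {g | ∃ β, Vv J ω 1 β ∧ actPerm β = g}
  one_mem' := by
    refine ⟨aff (fun _ => 0) (fun _ => 0), Vv_aff _ _ _ _ _, ?_⟩
    ext1 w
    show act _ w = w
    exact fix_of_zero (fun n _ => aff_const (fun _ _ => rfl))
  mul_mem' := by
    rintro _ _ ⟨β, hβ, rfl⟩ ⟨γ, hγ, rfl⟩
    refine ⟨comp β γ, hβ.comp hγ, ?_⟩
    ext1 w
    exact act_comp β γ w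
  inv_mem' := by
    rintro _ ⟨β, hβ, rfl⟩
    refine ⟨pinv β, hβ.pinv, ?_⟩
    rw [eq_comm, inv_eq_iff_mul_eq_one]
    ext1 w
    exact act_act_pinv β w

lemma grp_le (ω : ℕ → Bool) (J : ℕ) : grp ω J ≤ TreeAut 2 := by
  rintro _ ⟨β, _, rfl⟩
  exact actPerm_mem β

lemma exists_translation (u w : List (Fin 2)) (h : u.length = w.length) :
    ∃ b : ℕ → Fin 2, act (aff (fun _ => 0) b) u = w := by
  induction u generalizing w with
  | nil =>
    refine ⟨fun _ => 0, ?_⟩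
    have : w = [] := List.eq_nil_of_length_eq_zero (by rw [← h]; rfl)
    rw [this]
    rfl
  | cons i u ih =>
    cases w with
    | nil => simp at h
    | cons j w =>
      rw [List.length_cons, List.length_cons] at h
      obtain ⟨b, hb⟩ := ih w (by omega)
      refine ⟨fun n => if n = 0 then i + j else b (n - 1), ?_⟩
      rw [act_cons, sec_aff]
      have e1 : sh (fun n => if n = 0 then i + j else b (n - 1)) i (fun _ => 0) = b := by
        funext n
        simp [sh]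
      rw [e1, hb, aff_nil, if_pos rfl]
      congr 1
      clear h hb e1 ih
      revert i j
      decide

lemma grp_transitive (ω : ℕ → Bool) (J : ℕ) : LevelTransitive (grp ω J) := by
  intro u w h
  obtain ⟨b, hb⟩ := exists_translation u w h
  exact ⟨actPerm (aff (fun _ => 0) b), ⟨_, Vv_aff _ _ _ _ _, rfl⟩, hb⟩

/-- the permutation of a level given by a portrait -/
def lvl (n : ℕ) (β : Po) : Equiv.Perm {w : List (Fin 2) // w.length = n} :=
  levelHom 2 n ⟨actPerm β, actPerm_mem β⟩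

lemma lvl_apply (n : ℕ) (β : Po) (w : {w : List (Fin 2) // w.length = n}) :
    (lvl n β w : List (Fin 2)) = act β w := rfl

lemma lvl_inj (n : ℕ) : Set.InjOn (lvl n) {β : Po | Supp n β} := by
  intro β hβ γ hγ h
  funext w
  rcases Nat.lt_or_ge w.length n with h1 | h1
  · refine act_inj (fun x hx => ?_) h1
    rw [← lvl_apply n β ⟨x, hx⟩, ← lvl_apply n γ ⟨x, hx⟩, h]
  · rw [hβ w h1, hγ w h1]

/-- the constrained portraits of depth `1 + j` -/
def Lv (ω : ℕ → Bool) (j : ℕ) : Set Po := {β | Supp (1 + j) β ∧ Vv j ω 1 β}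

lemma levelPerms_grp {ω : ℕ → Bool} {j J : ℕ} (h : j ≤ J) :
    levelPerms (grp ω J) (1 + j) = lvl (1 + j) '' Lv ω j := by
  ext σ
  constructor
  · rintro ⟨_, ⟨β, hβ, rfl⟩, hσ⟩
    refine ⟨tr (1 + j) β, ⟨tr_supp _ _, (hβ.mono h).congr (fun w hw => tr_lt hw)⟩, ?_⟩
    ext1 w
    apply Subtype.ext
    rw [hσ w, lvl_apply]
    exact act_congr (fun v hv => tr_lt hv) w.2.le
  · rintro ⟨β, ⟨_, hβ⟩, rfl⟩
    obtain ⟨γ, hγ1, hγ2⟩ := hβ.extend_le h
    refine ⟨actPerm γ, ⟨γ, hγ2, rfl⟩, fun w => ?_⟩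
    rw [lvl_apply]
    exact (act_congr hγ1 w.2.le).symm

lemma lvl_fix (n : ℕ) (β : Po) : (∃ w, lvl n β w = w) ↔ FixN n β := by
  constructor
  · rintro ⟨w, hw⟩
    refine ⟨w, w.2, ?_⟩
    rw [← lvl_apply, hw]
  · rintro ⟨x, hx, hx'⟩
    exact ⟨⟨x, hx⟩, Subtype.ext hx'⟩

lemma levelPerms_grp_fix {ω : ℕ → Bool} {j J : ℕ} (h : j ≤ J) :
    {σ ∈ levelPerms (grp ω J) (1 + j) | ∃ w, σ w = w} =
      lvl (1 + j) '' {β ∈ Lv ω j | FixN (1 + j) β} := by
  rw [levelPerms_grp h]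
  ext σ
  constructor
  · rintro ⟨⟨β, hβ, rfl⟩, hw⟩
    exact ⟨β, ⟨hβ, (lvl_fix _ _).mp hw⟩, rfl⟩
  · rintro ⟨β, ⟨hβ, hw⟩, rfl⟩
    exact ⟨⟨β, hβ, rfl⟩, (lvl_fix _ _).mpr hw⟩

lemma Lv_eq (ω : ℕ → Bool) (j : ℕ) : Lv ω j = Zc j ω 0 := by
  ext γ
  constructor
  · rintro ⟨h1, h2⟩
    refine ⟨fun w hw => h1 w (by omega), h2, γ [], fun w hw => ?_⟩
    have : w = [] := List.eq_nil_of_length_eq_zero (by omega)
    rw [this, cst_apply, List.length_nil, if_pos rfl]
  · rintro ⟨h1, h2, _⟩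
    exact ⟨fun w hw => h1 w (by omega), h2⟩

lemma fixRatio_grp {ω : ℕ → Bool} {j J : ℕ} (h : j ≤ J) :
    fixRatio (grp ω J) (1 + j) = pv j ω / 2 := by
  have h1 := count_pv j ω 0
  have h2 : (levelPerms (grp ω J) (1 + j)).ncard = 2 * cX j ω 1 := by
    rw [levelPerms_grp h, Set.InjOn.ncard_image ((lvl_inj (1 + j)).mono (fun _ h => h.1)),
      Lv_eq, ncard_Zc]
  have h3 : {σ ∈ levelPerms (grp ω J) (1 + j) | ∃ w, σ w = w}.ncard = cF j ω 1 := by
    rw [levelPerms_grp_fix h,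
      Set.InjOn.ncard_image ((lvl_inj (1 + j)).mono (fun _ h => h.1.1)), Lv_eq,
      show 1 + j = 0 + 1 + j by omega, ncard_Zc_fix]
  unfold fixRatio
  rw [h3, h2]
  have h4 : (0 : ℝ) < cX j ω 1 := by exact_mod_cast h1.1
  have h5 : (cF j ω 1 : ℝ) = pv j ω * cX j ω 1 := h1.2
  rw [h5]
  push_cast
  field_simp

/-- the value `x / 2` occurs if `x` is a limit of the proportions -/
theorem mem_spectrum_two {ω : ℕ → Bool} {x : ℝ} (h : Tendsto (fun j => pv j ω) atTop (nhds x)) :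
    x / 2 ∈ fppSpectrum 2 := by
  let U : Ultrafilter ℕ := hyperfilter ℕ
  have hU : (U : Filter ℕ) ≤ atTop := by
    rw [← Nat.cofinite_eq_atTop]
    exact hyperfilter_le_cofinite
  refine ⟨limGroup U (grp ω), limGroup_le U _, limGroup_transitive U _ (grp_le ω)
    (grp_transitive ω), ?_⟩
  have h1 : ∀ j, fixRatio (limGroup U (grp ω)) (1 + j) = pv j ω / 2 := by
    intro j
    have h2 : ∀ᶠ J in (U : Filter ℕ), j ≤ J := hU (eventually_ge_atTop j)
    obtain ⟨J, hJ1, hJ2⟩ := ((levelPerms_lim U (grp ω) (grp_le ω) (1 + j)).and h2).exists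
    rw [← fixRatio_grp hJ2]
    unfold fixRatio
    rw [hJ1]
  unfold HasFPP
  rw [← tendsto_add_atTop_iff_nat 1]
  refine (h.div_const 2).congr (fun j => ?_)
  rw [← h1 j, add_comm]

end Pool.Agent.Helper84.Fpp
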