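import Pool.Agent.Helper84.Fpp.Form
import Pool.Agent.TreeFPP.Tree3

set_option autoImplicit false

/-!
# Double counting: the proportion of elements with a fixed leaf
-/

namespace Pool.Agent.Helper84.Fpp

open Finset Pool.Agent.TreeFPP

variable {d : ℕ}

/-- the words of length `n` -/
noncomputable def lev (d n : ℕ) : Finset (List (Fin d)) :=
  (List.finite_length_eq (Fin d) n).toFinset

lemma mem_lev {n : ℕ} {w : List (Fin d)} : w ∈ lev d n ↔ w.length = n := by
  simp [lev]

/-- pairs of words of length `n` at height `h` -/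
noncomputable def prs (d n h : ℕ) : Finset (List (Fin d) × List (Fin d)) :=
  (lev d n ×ˢ lev d n).filter (fun p => ht p.1 p.2 = h)

lemma mem_prs {n h : ℕ} {p : List (Fin d) × List (Fin d)} :
    p ∈ prs d n h ↔ (p.1.length = n ∧ p.2.length = n) ∧ ht p.1 p.2 = h := by
  simp [prs, mem_lev]

lemma QF_eq {n : ℕ} {L : Finset (List (Fin d))} (hL : ∀ w ∈ L, w.length = n) :
    QF L = ∑ h ∈ range (n + 1), cw d h *
      (((L ×ˢ L).filter (fun p => ht p.1 p.2 = h)).card : ℝ) := by
  unfold QF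
  rw [← Finset.sum_product']
  rw [← Finset.sum_fiberwise_of_maps_to (g := fun p : List (Fin d) × List (Fin d) => ht p.1 p.2)
    (t := range (n + 1))]
  · refine sum_congr rfl fun h _ => ?_
    rw [sum_congr rfl (g := fun _ => cw d h)]
    · rw [sum_const, nsmul_eq_mul, mul_comm]
    · intro p hp
      rw [(mem_filter.mp hp).2]
  · intro p hp
    rw [mem_product] at hp
    rw [mem_range]
    have := ht_le (u := p.1) (v := p.2)
    rw [hL _ hp.1] at this
    omega

section Act

variable {S : Type*} [Group S] [Fintype S] [MulAction S (List (Fin d))]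

lemma fx_prs {n h : ℕ} (s : S) :
    ((fx (lev d n) s) ×ˢ (fx (lev d n) s)).filter (fun p => ht p.1 p.2 = h) =
      fx (prs d n h) s := by
  ext ⟨u, v⟩
  simp only [mem_filter, mem_product, mem_fx, mem_prs, mem_lev, Prod.smul_mk, Prod.mk.injEq]
  tauto

lemma sum_QF (n : ℕ) : ∑ s : S, QF (fx (lev d n) s) =
    ∑ h ∈ range (n + 1), cw d h * ((∑ p ∈ prs d n h, (stb S p).card : ℕ) : ℝ) := by
  have h1 : ∀ s : S, QF (fx (lev d n) s) =
      ∑ h ∈ range (n + 1), cw d h * ((fx (prs d n h) s).card : ℝ) := by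
    intro s
    rw [QF_eq (n := n) (fun w hw => mem_lev.mp (mem_fx.mp hw).1)]
    simp only [fx_prs]
  rw [sum_congr rfl (fun s _ => h1 s), sum_comm]
  refine sum_congr rfl fun h _ => ?_
  rw [← mul_sum, ← sum_fx]
  push_cast
  rfl

lemma sum_stb_ge {A : Type*} [MulAction S A] [DecidableEq A] (Z : Finset A) {p : A}
    (hp : orb S p ⊆ Z) : Fintype.card S ≤ ∑ z ∈ Z, (stb S z).card := by
  have horb : ∑ z ∈ orb S p, (stb S z).card = Fintype.card S := by
    rw [← sum_fx, sum_fx_of_trans]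
    · exact ⟨p, mem_orb.mpr ⟨1, one_smul _ _⟩⟩
    · intro x hx
      obtain ⟨s, rfl⟩ := mem_orb.mp hx
      ext y
      rw [mem_orb, mem_orb]
      constructor
      · rintro ⟨t, rfl⟩
        exact ⟨t * s, by rw [mul_smul]⟩
      · rintro ⟨t, rfl⟩
        exact ⟨t * s⁻¹, by rw [mul_smul, inv_smul_smul]⟩
  rw [← horb]
  exact sum_le_sum_of_subset hp

/-- pairs of every height exist -/
lemma exists_pair (hd : 2 ≤ d) {n h : ℕ} (hn : h + 1 ≤ n) :
    ∃ u v : List (Fin d), (u.length = n ∧ v.length = n) ∧ ht u v = h + 1 := by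
  have h1 : ∀ k : ℕ, ∃ u v : List (Fin d), (u.length = h + 1 + k ∧ v.length = h + 1 + k) ∧
      ht u v = h + 1 := by
    intro k
    induction k with
    | zero =>
      refine ⟨(⟨0, by omega⟩ : Fin d) :: List.replicate h ⟨0, by omega⟩,
        (⟨1, by omega⟩ : Fin d) :: List.replicate h ⟨0, by omega⟩, by simp, ?_⟩
      rw [ht_cons_ne (by simp [Fin.ext_iff])]
      simp
    | succ k ih =>
      obtain ⟨u, v, ⟨hu, hv⟩, huv⟩ := ih
      refine ⟨(⟨0, by omega⟩ : Fin d) :: u, (⟨0, by omega⟩ : Fin d) :: v, ?_, ?_⟩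
      · simp only [List.length_cons, hu, hv]
        omega
      · rw [ht_cons_self, huv]
  obtain ⟨u, v, huv⟩ := h1 (n - (h + 1))
  refine ⟨u, v, ?_, huv.2⟩
  have := huv.1
  omega

/-- the upper bound -/
theorem count_le (hd : 2 ≤ d) {n : ℕ} (hlen : ∀ (s : S) (w : List (Fin d)),
      (s • w).length = w.length)
    (hht : ∀ (s : S) (u v : List (Fin d)), u.length = n → v.length = n →
      ht (s • u) (s • v) = ht u v)
    (htr : ∀ u v : List (Fin d), u.length = n → v.length = n → ∃ s : S, s • u = v) :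
    ((univ.filter (fun s : S => (fx (lev d n) s).Nonempty)).card : ℝ) ≤
      (1 - ∑ h ∈ range n, cw d (h + 1)) * (Fintype.card S : ℝ) := by
  classical
  have hcard : ∑ s : S, (fx (lev d n) s).card = Fintype.card S := by
    refine sum_fx_of_trans _ ⟨List.replicate n ⟨0, by omega⟩, by rw [mem_lev]; simp⟩ ?_
    intro x hx
    rw [mem_lev] at hx
    ext y
    rw [mem_orb, mem_lev]
    constructor
    · rintro ⟨s, rfl⟩
      rw [hlen, hx]
    · intro hy
      exact htr x y hx hy
  have hpt : ∀ s : S, (if (fx (lev d n) s).Nonempty then (1 : ℝ) else 0) +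
      QF (fx (lev d n) s) ≤ ((fx (lev d n) s).card : ℝ) := by
    intro s
    by_cases h : (fx (lev d n) s).Nonempty
    · rw [if_pos h]
      exact form_ineq (n := n) (fun w hw => mem_lev.mp (mem_fx.mp hw).1) h
    · rw [if_neg h]
      rw [Finset.not_nonempty_iff_eq_empty] at h
      rw [h]
      simp [QF]
  have hsum := sum_le_sum (fun s (_ : s ∈ (univ : Finset S)) => hpt s)
  rw [sum_add_distrib] at hsum
  have e1 : ∑ s : S, (if (fx (lev d n) s).Nonempty then (1 : ℝ) else 0) =
      ((univ.filter (fun s : S => (fx (lev d n) s).Nonempty)).card : ℝ) := by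
    rw [← sum_filter, sum_const, nsmul_eq_mul, mul_one]
  have e2 : ∑ s : S, ((fx (lev d n) s).card : ℝ) = (Fintype.card S : ℝ) := by
    exact_mod_cast hcard
  rw [e1, e2, sum_QF, Finset.sum_range_succ', cw_zero, zero_mul, add_zero] at hsum
  have h2 : ∑ h ∈ range n, cw d (h + 1) * (Fintype.card S : ℝ) ≤
      ∑ h ∈ range n, cw d (h + 1) * ((∑ p ∈ prs d n (h + 1), (stb S p).card : ℕ) : ℝ) := by
    refine sum_le_sum fun h hh => ?_
    rw [mem_range] at hh
    refine mul_le_mul_of_nonneg_left ?_ (cw_nonneg _ _)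
    obtain ⟨u, v, hlen', huv⟩ := exists_pair hd (n := n) (h := h) (by omega)
    have := sum_stb_ge (S := S) (prs d n (h + 1)) (p := (u, v)) (by
      intro q hq
      obtain ⟨s, rfl⟩ := mem_orb.mp hq
      rw [mem_prs, Prod.smul_mk]
      exact ⟨⟨by rw [hlen, hlen'.1], by rw [hlen, hlen'.2]⟩,
        by rw [hht s u v hlen'.1 hlen'.2, huv]⟩)
    exact_mod_cast this
  rw [← sum_mul] at h2
  linarith

/-- the case of equality -/
theorem count_eq (hd : 2 ≤ d) {n : ℕ} (hlen : ∀ (s : S) (w : List (Fin d)),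
      (s • w).length = w.length)
    (hht : ∀ (s : S) (u v : List (Fin d)), u.length = n → v.length = n →
      ht (s • u) (s • v) = ht u v)
    (htr : ∀ u v : List (Fin d), u.length = n → v.length = n → ∃ s : S, s • u = v)
    (htr2 : ∀ u v u' v' : List (Fin d), u.length = n → v.length = n → u'.length = n →
      v'.length = n → ht u v = ht u' v' → ∃ s : S, s • u = u' ∧ s • v = v')
    (hball : ∀ (s : S) (x : List (Fin d)), x.length = n → s • x = x →
      ∃ k ≤ n, ∀ w : List (Fin d), w.length = n → (s • w = w ↔ ht w x ≤ k)) :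
    ((univ.filter (fun s : S => (fx (lev d n) s).Nonempty)).card : ℝ) =
      (1 - ∑ h ∈ range n, cw d (h + 1)) * (Fintype.card S : ℝ) := by
  classical
  have hcard : ∑ s : S, (fx (lev d n) s).card = Fintype.card S := by
    refine sum_fx_of_trans _ ⟨List.replicate n ⟨0, by omega⟩, by rw [mem_lev]; simp⟩ ?_
    intro x hx
    rw [mem_lev] at hx
    ext y
    rw [mem_orb, mem_lev]
    constructor
    · rintro ⟨s, rfl⟩
      rw [hlen, hx]
    · intro hy
      exact htr x y hx hy
  have hpt : ∀ s : S, (if (fx (lev d n) s).Nonempty then (1 : ℝ) else 0) +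
      QF (fx (lev d n) s) = ((fx (lev d n) s).card : ℝ) := by
    intro s
    by_cases h : (fx (lev d n) s).Nonempty
    · rw [if_pos h]
      obtain ⟨x, hx⟩ := h
      rw [mem_fx, mem_lev] at hx
      obtain ⟨k, hk, hb⟩ := hball s x hx.1 hx.2
      refine form_ball n hk x hx.1 ?_
      intro w
      rw [mem_fx, mem_lev]
      constructor
      · rintro ⟨h1, h2⟩
        exact ⟨h1, (hb w h1).mp h2⟩
      · rintro ⟨h1, h2⟩
        exact ⟨h1, (hb w h1).mpr h2⟩
    · rw [if_neg h]
      rw [Finset.not_nonempty_iff_eq_empty] at h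
      rw [h]
      simp [QF]
  have hsum := sum_congr rfl (fun s (_ : s ∈ (univ : Finset S)) => hpt s)
  rw [sum_add_distrib] at hsum
  have e1 : ∑ s : S, (if (fx (lev d n) s).Nonempty then (1 : ℝ) else 0) =
      ((univ.filter (fun s : S => (fx (lev d n) s).Nonempty)).card : ℝ) := by
    rw [← sum_filter, sum_const, nsmul_eq_mul, mul_one]
  have e2 : ∑ s : S, ((fx (lev d n) s).card : ℝ) = (Fintype.card S : ℝ) := by
    exact_mod_cast hcard
  rw [e1, e2, sum_QF, Finset.sum_range_succ', cw_zero, zero_mul, add_zero] at hsum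
  have h2 : ∑ h ∈ range n, cw d (h + 1) *
      ((∑ p ∈ prs d n (h + 1), (stb S p).card : ℕ) : ℝ) =
      ∑ h ∈ range n, cw d (h + 1) * (Fintype.card S : ℝ) := by
    refine sum_congr rfl fun h hh => ?_
    rw [mem_range] at hh
    congr 1
    obtain ⟨u, v, hlen', huv⟩ := exists_pair hd (n := n) (h := h) (by omega)
    have := sum_fx_of_trans (S := S) (prs d n (h + 1)) ⟨(u, v), mem_prs.mpr ⟨hlen', huv⟩⟩ (by
      rintro ⟨a, b⟩ hab
      rw [mem_prs] at hab
      ext ⟨a', b'⟩
      rw [mem_orb, mem_prs]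
      constructor
      · rintro ⟨s, hs⟩
        rw [Prod.smul_mk, Prod.mk.injEq] at hs
        obtain ⟨h1, h2⟩ := hs
        subst h1 h2
        exact ⟨⟨by rw [hlen]; exact hab.1.1, by rw [hlen]; exact hab.1.2⟩,
          by rw [hht s a b hab.1.1 hab.1.2]; exact hab.2⟩
      · rintro ⟨h1, h2⟩
        obtain ⟨s, hs1, hs2⟩ := htr2 a b a' b' hab.1.1 hab.1.2 h1.1 h1.2 (hab.2.trans h2.symm)
        exact ⟨s, by rw [Prod.smul_mk, hs1, hs2]⟩)
    rw [sum_fx] at this
    exact_mod_cast this
  rw [h2, ← sum_mul] at hsum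
  linarith

end Act

/-- automorphisms preserve heights -/
lemma ht_aut {g : Equiv.Perm (List (Fin d))} (hg : g ∈ TreeAut d) {n : ℕ} {u v : List (Fin d)}
    (hu : u.length = n) (hv : v.length = n) : ht (g u) (g v) = ht u v := by
  have h1 : ∀ m ≤ n, ht (g u) (g v) ≤ m ↔ ht u v ≤ m := by
    intro m hm
    rw [ht_le_iff (by rw [aut_length hg, hu]) (by rw [aut_length hg, hv]) hm,
      ht_le_iff hu hv hm, ← aut_take hg, ← aut_take hg]
    exact g.injective.eq_iff
  have h2 : ht (g u) (g v) ≤ n := by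
    refine ht_le.trans ?_
    rw [aut_length hg, hu]
  have h3 : ht u v ≤ n := ht_le.trans hu.le
  apply le_antisymm
  · exact (h1 _ h3).mpr le_rfl
  · exact (h1 _ h2).mp le_rfl

/-- the sharp bound at level `n` -/
theorem fixRatio_le (hd : 2 ≤ d) {G : Subgroup (Equiv.Perm (List (Fin d)))}
    (hG : G ≤ TreeAut d) (ht' : LevelTransitive G) (n : ℕ) :
    fixRatio G n ≤ 1 - ∑ h ∈ range n, cw d (h + 1) := by
  classical
  haveI : Fintype (truncGroup G n) := Fintype.ofFinite _
  rw [fixRatio_eq hG (le_refl n)]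
  have hpos : (0 : ℝ) < Fintype.card (truncGroup G n) := by exact_mod_cast Fintype.card_pos
  rw [div_le_iff₀ hpos]
  have h := count_le (S := truncGroup G n) hd (n := n)
    (fun s w => aut_length (truncGroup_le G n s.2) w)
    (fun s u v hu hv => ht_aut (truncGroup_le G n s.2) hu hv) ?_
  · refine le_trans (le_of_eq ?_) h
    congr 2
    ext γ
    simp only [mem_filter, mem_univ, true_and]
    constructor
    · rintro ⟨u, hu, h⟩
      exact ⟨u, by rw [mem_fx, mem_lev]; exact ⟨hu, h⟩⟩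
    · rintro ⟨u, h⟩
      rw [mem_fx, mem_lev] at h
      exact ⟨u, h.1, h.2⟩
  · intro u v hu hv
    obtain ⟨g, hg, hgu⟩ := ht' u v (hu.trans hv.symm)
    refine ⟨⟨truncHom d n ⟨g, hG hg⟩, mem_truncGroup.mpr ⟨⟨g, hG hg⟩, hg, rfl⟩⟩, ?_⟩
    show truncHom d n ⟨g, hG hg⟩ u = v
    rw [truncHom_of_le _ hu.le]
    exact hgu

end Pool.Agent.Helper84.Fpp
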