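import Pool.Agent.Helper84.Fpp.Vset

set_option autoImplicit false

/-!
# Counting constrained portraits with fixed vertices
-/

namespace Pool.Agent.Helper84.Fpp

/-- the zero portrait -/
abbrev zp : Po := fun _ => 0

section Fix

lemma zero_of_fix {γ : Po} {x : List (Fin 2)} (h : act γ x = x) {n : ℕ} (hn : n < x.length) :
    γ (x.take n) = 0 := by
  induction x generalizing γ n with
  | nil => simp at hn
  | cons i x ih =>
    rw [act_fix_cons] at h
    cases n with
    | zero => exact h.1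
    | succ n =>
      rw [List.length_cons] at hn
      exact ih h.2 (by omega)

lemma fix_of_zero {γ : Po} {x : List (Fin 2)} (h : ∀ n, n < x.length → γ (x.take n) = 0) :
    act γ x = x := by
  induction x generalizing γ with
  | nil => rfl
  | cons i x ih =>
    rw [act_fix_cons]
    refine ⟨h 0 (by simp), ih (fun n hn => ?_)⟩
    exact h (n + 1) (by rw [List.length_cons]; omega)

lemma act_zp (x : List (Fin 2)) : act zp x = x := fix_of_zero (fun _ _ => rfl)

lemma fixN_congr {N : ℕ} {β γ : Po} (h : ∀ w : List (Fin 2), w.length < N → β w = γ w) :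
    FixN N β ↔ FixN N γ := by
  constructor
  · rintro ⟨x, hx, hx'⟩
    exact ⟨x, hx, by rw [← act_congr h hx.le]; exact hx'⟩
  · rintro ⟨x, hx, hx'⟩
    exact ⟨x, hx, by rw [act_congr h hx.le]; exact hx'⟩

lemma fixN_succ {N : ℕ} {β : Po} : FixN (N + 1) β ↔ β [] = 0 ∧ ∃ i, FixN N (sec β i) := by
  constructor
  · rintro ⟨x, hx, hx'⟩
    cases x with
    | nil => simp at hx
    | cons i x =>
      rw [act_fix_cons] at hx'
      rw [List.length_cons] at hx
      exact ⟨hx'.1, i, x, by omega, hx'.2⟩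
  · rintro ⟨h0, i, x, hx, hx'⟩
    refine ⟨i :: x, by rw [List.length_cons, hx], ?_⟩
    rw [act_fix_cons]
    exact ⟨h0, hx'⟩

end Fix

section Special

lemma aff_replicate (α b : ℕ → Fin 2) (n : ℕ) : aff α b (List.replicate n 0) = b n := by
  induction n generalizing b with
  | zero => rfl
  | succ n ih =>
    rw [List.replicate_succ, aff_cons, ih]
    simp only [sh, zero_mul, add_zero]

lemma aff_one_replicate (α b : ℕ → Fin 2) (n : ℕ) :
    aff α b (1 :: List.replicate n 0) = b (n + 1) + α n := by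
  rw [aff_cons, aff_replicate]
  simp only [sh, one_mul]

lemma aff_congr {α α' b b' : ℕ → Fin 2} {w : List (Fin 2)} (h : ∀ l, l < w.length → α l = α' l)
    (h' : ∀ n, n ≤ w.length → b n = b' n) : aff α b w = aff α' b' w := by
  induction w generalizing b b' with
  | nil => exact h' 0 le_rfl
  | cons i w ih =>
    rw [aff_cons, aff_cons]
    refine ih (fun l hl => h l (by rw [List.length_cons]; omega)) (fun n hn => ?_)
    simp only [sh]
    rw [h' (n + 1) (by rw [List.length_cons]; omega), h n (by rw [List.length_cons]; omega)]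

/-- the affine portrait with bits `e + c w_0` on level `k + 1` and zero above -/
def lv (k : ℕ) (e c : Fin 2) : Po :=
  aff (fun n => if n = k then c else 0) (fun n => if n = k + 1 then e else 0)

lemma lv_low {k : ℕ} {e c : Fin 2} {w : List (Fin 2)} (hw : w.length < k + 1) :
    lv k e c w = 0 := by
  unfold lv
  rw [aff_const (fun l hl => if_neg (by omega)), if_neg (by omega)]

lemma lv_top {k : ℕ} {e c i : Fin 2} {w : List (Fin 2)} (hw : w.length = k) :
    lv k e c (i :: w) = e + i * c := by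
  unfold lv
  rw [aff_top (fun l hl => if_neg (by omega)), if_pos (by omega), if_pos hw]

lemma lv_zero (k : ℕ) (w : List (Fin 2)) : lv k 0 0 w = 0 := by
  unfold lv
  rw [aff_const (fun l _ => by split <;> rfl)]
  split <;> rfl

lemma low_affine {k : ℕ} {γ : Po} (h : Aff (k + 2) γ) (hl : Low (k + 1) γ) :
    ∀ w : List (Fin 2), w.length < k + 2 → γ w = lv k (γ (List.replicate (k + 1) 0))
      (γ (List.replicate (k + 1) 0) + γ (1 :: List.replicate k 0)) w := by
  obtain ⟨α, b, hb⟩ := h
  have hb0 : ∀ n, n < k + 1 → b n = 0 := by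
    intro n hn
    have h1 := hl (List.replicate n 0) (by rw [List.length_replicate]; omega)
    rw [hb _ (by rw [List.length_replicate]; omega), aff_replicate] at h1
    exact h1
  have ha0 : ∀ n, n < k → α n = 0 := by
    intro n hn
    have h1 := hl (1 :: List.replicate n 0) (by
      rw [List.length_cons, List.length_replicate]; omega)
    rw [hb _ (by rw [List.length_cons, List.length_replicate]; omega), aff_one_replicate,
      hb0 _ (by omega), zero_add] at h1
    exact h1
  have he : γ (List.replicate (k + 1) 0) = b (k + 1) := by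
    rw [hb _ (by rw [List.length_replicate]; omega), aff_replicate]
  have hc : γ (1 :: List.replicate k 0) = b (k + 1) + α k := by
    rw [hb _ (by rw [List.length_cons, List.length_replicate]; omega), aff_one_replicate]
  intro w hw
  rw [hb w hw, he, hc]
  unfold lv
  have e1 : b (k + 1) + (b (k + 1) + α k) = α k := by
    generalize b (k + 1) = x
    generalize α k = y
    revert x y
    decide
  rw [e1]
  refine aff_congr (fun l hl' => ?_) (fun n hn => ?_)
  · split
    · next h2 => rw [h2]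
    · exact ha0 l (by omega)
  · split
    · next h2 => rw [h2]
    · exact hb0 n (by omega)

/-- the affine portrait with bits `e` on level `k` and zero elsewhere -/
def cst (k : ℕ) (e : Fin 2) : Po := aff (fun _ => 0) (fun n => if n = k then e else 0)

lemma cst_apply (k : ℕ) (e : Fin 2) (w : List (Fin 2)) :
    cst k e w = if w.length = k then e else 0 := by
  unfold cst
  rw [aff_const (fun _ _ => rfl)]

end Special

section Classes

/-- a class of constrained portraits of depth `m + j` -/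
def cls (j : ℕ) (ω : ℕ → Bool) (m : ℕ) (δ : Po) : Set Po :=
  {γ | Supp (m + j) γ ∧ Vv j ω m γ ∧ ∀ w : List (Fin 2), w.length < m → γ w = δ w}

lemma finite_supp (N : ℕ) : {γ : Po | Supp N γ}.Finite := by
  have hfin : Finite {w : List (Fin 2) // w.length < N} :=
    (List.finite_length_lt (Fin 2) N).to_subtype
  refine Set.Finite.of_injOn (f := fun (γ : Po) (w : {w : List (Fin 2) // w.length < N}) => γ w)
    (t := Set.univ) (fun _ _ => Set.mem_univ _) ?_ Set.finite_univ
  intro γ hγ δ hδ h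
  funext w
  rcases Nat.lt_or_ge w.length N with h1 | h1
  · exact congrFun h ⟨w, h1⟩
  · rw [hγ w h1, hδ w h1]

lemma finite_cls (j : ℕ) (ω : ℕ → Bool) (m : ℕ) (δ : Po) : (cls j ω m δ).Finite :=
  (finite_supp (m + j)).subset (fun _ h => h.1)

/-- truncation -/
def tr (N : ℕ) (γ : Po) : Po := fun w => if w.length < N then γ w else 0

lemma tr_lt {N : ℕ} {γ : Po} {w : List (Fin 2)} (h : w.length < N) : tr N γ w = γ w := if_pos h

lemma tr_supp (N : ℕ) (γ : Po) : Supp N (tr N γ) := fun w hw => if_neg (by omega)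

lemma cls_shift {j : ℕ} {ω : ℕ → Bool} {m : ℕ} {δ γ : Po} (α b : ℕ → Fin 2)
    (h : γ ∈ cls j ω m δ) :
    tr (m + j) (fun w => γ w + aff α b w) ∈ cls j ω m (fun w => δ w + aff α b w) := by
  refine ⟨tr_supp _ _, ?_, fun w hw => ?_⟩
  · exact (Vv.add h.2.1 (Vv_aff j ω m α b)).congr (fun w hw => tr_lt hw)
  · rw [tr_lt (by omega), h.2.2 w hw]

lemma tr_tr {N : ℕ} {γ : Po} (δ : Po) (h : Supp N γ) :
    tr N (fun w => tr N (fun w => γ w + δ w) w + δ w) = γ := by
  funext w
  rcases Nat.lt_or_ge w.length N with h1 | h1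
  · rw [tr_lt h1, tr_lt h1, f2_cancel]
  · rw [tr_supp _ _ w h1, h w h1]

lemma ncard_cls (j : ℕ) (ω : ℕ → Bool) (m : ℕ) (α b : ℕ → Fin 2) :
    (cls j ω m (aff α b)).ncard = (cls j ω m zp).ncard := by
  symm
  refine Set.ncard_congr (fun γ _ => tr (m + j) (fun w => γ w + aff α b w)) ?_ ?_ ?_
  · intro γ hγ
    have h1 := cls_shift α b hγ
    have e1 : (fun w => zp w + aff α b w) = aff α b := by
      funext w
      exact zero_add _
    rw [e1] at h1
    exact h1
  · intro γ δ hγ hδ h
    rw [← tr_tr (aff α b) hγ.1, ← tr_tr (aff α b) hδ.1]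
    exact congrArg (fun ζ : Po => tr (m + j) (fun w => ζ w + aff α b w)) h
  · intro γ hγ
    have h1 := cls_shift α b hγ
    have e1 : (fun w => aff α b w + aff α b w) = zp := by
      funext w
      exact f2_two _
    rw [e1] at h1
    exact ⟨_, h1, tr_tr (aff α b) hγ.1⟩

lemma cls_congr {j : ℕ} {ω : ℕ → Bool} {m : ℕ} {δ δ' : Po}
    (h : ∀ w : List (Fin 2), w.length < m → δ w = δ' w) : cls j ω m δ = cls j ω m δ' := by
  ext γ
  constructor
  · rintro ⟨h1, h2, h3⟩
    exact ⟨h1, h2, fun w hw => (h3 w hw).trans (h w hw)⟩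
  · rintro ⟨h1, h2, h3⟩
    exact ⟨h1, h2, fun w hw => (h3 w hw).trans (h w hw).symm⟩

lemma ncard_split {S : Set Po} (hS : S.Finite) (a : List (Fin 2)) :
    S.ncard = {γ ∈ S | γ a = 0}.ncard + {γ ∈ S | γ a = 1}.ncard := by
  have hdis : Disjoint {γ ∈ S | γ a = 0} {γ ∈ S | γ a = 1} := by
    rw [Set.disjoint_left]
    rintro γ ⟨_, h1⟩ ⟨_, h2⟩
    rw [h1] at h2
    exact absurd h2 (by decide)
  rw [← Set.ncard_union_eq hdis (hS.subset (fun _ h => h.1)) (hS.subset (fun _ h => h.1))]
  · congr 1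
    ext γ
    simp only [Set.mem_union, Set.mem_ofPred_eq]
    constructor
    · intro h
      have : γ a = 0 ∨ γ a = 1 := by
        generalize γ a = x
        revert x
        decide
      rcases this with h1 | h1
      · exact Or.inl ⟨h, h1⟩
      · exact Or.inr ⟨h, h1⟩
    · rintro (h | h)
      · exact h.1
      · exact h.1

lemma ncard_split4 {S : Set Po} (hS : S.Finite) (a b : List (Fin 2)) :
    S.ncard = {γ ∈ {γ ∈ S | γ a = 0} | γ b = 0}.ncard + {γ ∈ {γ ∈ S | γ a = 0} | γ b = 1}.ncard +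
      ({γ ∈ {γ ∈ S | γ a = 1} | γ b = 0}.ncard + {γ ∈ {γ ∈ S | γ a = 1} | γ b = 1}.ncard) := by
  rw [ncard_split hS a]
  congr 1
  · exact ncard_split (hS.subset (fun _ h => h.1)) b
  · exact ncard_split (hS.subset (fun _ h => h.1)) b

/-- number of constrained portraits -/
noncomputable def cX (j : ℕ) (ω : ℕ → Bool) (m : ℕ) : ℕ := (cls j ω m zp).ncard

/-- number of constrained portraits with fixed vertices -/
noncomputable def cF (j : ℕ) (ω : ℕ → Bool) (m : ℕ) : ℕ :=
  {γ ∈ cls j ω m zp | FixN (m + j) γ}.ncard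

end Classes

section StepA

variable {j : ℕ} {ω : ℕ → Bool} {k : ℕ}

lemma clsA (h0 : ω 0 = true) (e d : Fin 2) :
    {γ ∈ {γ ∈ cls (j + 1) ω (k + 1) zp | γ (List.replicate (k + 1) 0) = e} |
      γ (1 :: List.replicate k 0) = d} = cls j (sw ω) (k + 2) (lv k e (e + d)) := by
  ext γ
  constructor
  · rintro ⟨⟨⟨h1, h2, h3⟩, h4⟩, h5⟩
    have h4' : γ (List.replicate (k + 1) 0) = e := h4
    have h5' : γ (1 :: List.replicate k 0) = d := h5
    rw [Vv_true h0] at h2
    refine ⟨fun w hw => h1 w (by omega), h2, ?_⟩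
    rw [← h4', ← h5']
    exact low_affine h2.aff h3
  · rintro ⟨h1, h2, h3⟩
    refine ⟨⟨⟨fun w hw => h1 w (by omega), (Vv_true h0).mpr h2, fun w hw => ?_⟩, ?_⟩, ?_⟩
    · rw [h3 w (by omega), lv_low hw]
    · show γ (List.replicate (k + 1) 0) = e
      rw [h3 _ (by rw [List.length_replicate]; omega), List.replicate_succ,
        lv_top (by rw [List.length_replicate]), zero_mul, add_zero]
    · show γ (1 :: List.replicate k 0) = d
      rw [h3 _ (by rw [List.length_cons, List.length_replicate]; omega),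
        lv_top (by rw [List.length_replicate])]
      clear h3 h2 h1
      revert e d
      decide

lemma cX_A (h0 : ω 0 = true) : cX (j + 1) ω (k + 1) = 4 * cX j (sw ω) (k + 2) := by
  unfold cX
  rw [ncard_split4 (finite_cls (j + 1) ω (k + 1) zp) (List.replicate (k + 1) 0)
    (1 :: List.replicate k 0), clsA h0, clsA h0, clsA h0, clsA h0]
  unfold lv
  rw [ncard_cls, ncard_cls, ncard_cls, ncard_cls]
  ring

/-- fixed classes -/
lemma fix_class {e c : Fin 2} {v : List (Fin 2)} (hv : v.length = k + 1) (hv0 : lv k e c v = 0)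
    (hw : ∃ w : List (Fin 2), w.length = k + 1 ∧ lv k e c w ≠ 0) {γ : Po}
    (hγ : γ ∈ cls j ω (k + 2) (lv k e c)) : FixN (k + 2 + j) γ := by
  obtain ⟨w, hw1, hw2⟩ := hw
  refine persist_fix hγ.2.1 ⟨w, by omega, by rw [hγ.2.2 w (by omega)]; exact hw2⟩ ?_
  refine ⟨v ++ [0], by rw [List.length_append, hv, List.length_singleton], ?_⟩
  refine fix_of_zero (fun n hn => ?_)
  rw [List.length_append, List.length_singleton, hv] at hn
  rw [List.take_append_of_le_length (by omega)]
  rcases Nat.lt_or_ge n (k + 1) with h1 | h1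
  · rw [hγ.2.2 _ (by rw [List.length_take]; omega), lv_low (by rw [List.length_take]; omega)]
  · rw [List.take_of_length_le (by omega), hγ.2.2 _ (by omega), hv0]

/-- class without fixed vertices -/
lemma no_fix {m : ℕ} {n : ℕ} {N : ℕ} (hn : n < m) (hN : n < N) {δ γ : Po}
    (hγ : γ ∈ cls j ω m δ) (hδ : ∀ w : List (Fin 2), w.length = n → δ w ≠ 0) : ¬FixN N γ := by
  rintro ⟨x, hx, hx'⟩
  have h1 := zero_of_fix hx' (n := n) (by omega)
  have h2 : (x.take n).length = n := by rw [List.length_take]; omega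
  rw [hγ.2.2 _ (by omega)] at h1
  exact hδ _ h2 h1

lemma cF_A (h0 : ω 0 = true) : cF (j + 1) ω (k + 1) =
    2 * cX j (sw ω) (k + 2) + cF j (sw ω) (k + 2) := by
  have hsub : {γ ∈ cls (j + 1) ω (k + 1) zp | FixN (k + 1 + (j + 1)) γ}.Finite :=
    (finite_cls (j + 1) ω (k + 1) zp).subset (fun _ h => h.1)
  have key : ∀ e d : Fin 2,
      {γ ∈ {γ ∈ {γ ∈ cls (j + 1) ω (k + 1) zp | FixN (k + 1 + (j + 1)) γ} |
        γ (List.replicate (k + 1) 0) = e} | γ (1 :: List.replicate k 0) = d} =
      {γ ∈ cls j (sw ω) (k + 2) (lv k e (e + d)) | FixN (k + 2 + j) γ} := by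
    intro e d
    rw [← clsA h0 e d]
    ext γ
    have e1 : k + 2 + j = k + 1 + (j + 1) := by omega
    rw [e1]
    constructor
    · rintro ⟨⟨⟨h1, h2⟩, h3⟩, h4⟩
      exact ⟨⟨⟨h1, h3⟩, h4⟩, h2⟩
    · rintro ⟨⟨⟨h1, h3⟩, h4⟩, h2⟩
      exact ⟨⟨⟨h1, h2⟩, h3⟩, h4⟩
  have hall : ∀ (e c : Fin 2) (v w : List (Fin 2)), v.length = k + 1 → lv k e c v = 0 →
      w.length = k + 1 → lv k e c w ≠ 0 →
      {γ ∈ cls j (sw ω) (k + 2) (lv k e c) | FixN (k + 2 + j) γ}.ncard = cX j (sw ω) (k + 2) := by
    intro e c v w hv hv0 hw hw0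
    have e1 : {γ ∈ cls j (sw ω) (k + 2) (lv k e c) | FixN (k + 2 + j) γ} =
        cls j (sw ω) (k + 2) (lv k e c) := by
      ext γ
      exact ⟨fun h => h.1, fun h => ⟨h, fix_class hv hv0 ⟨w, hw, hw0⟩ h⟩⟩
    rw [e1]
    exact ncard_cls _ _ _ _ _
  unfold cF
  rw [ncard_split4 hsub (List.replicate (k + 1) 0) (1 :: List.replicate k 0),
    key, key, key, key]
  have c00 : {γ ∈ cls j (sw ω) (k + 2) (lv k 0 (0 + 0)) | FixN (k + 2 + j) γ}.ncard =
      {γ ∈ cls j (sw ω) (k + 2) zp | FixN (k + 2 + j) γ}.ncard := by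
    rw [cls_congr (δ := lv k 0 (0 + 0)) (δ' := zp) (fun w _ => lv_zero k w)]
  have c01 : {γ ∈ cls j (sw ω) (k + 2) (lv k 0 (0 + 1)) | FixN (k + 2 + j) γ}.ncard =
      cX j (sw ω) (k + 2) := by
    refine hall 0 (0 + 1) (0 :: List.replicate k 0) (1 :: List.replicate k 0) (by simp) ?_
      (by simp) ?_
    · rw [lv_top (by simp)]; decide
    · rw [lv_top (by simp)]; decide
  have c10 : {γ ∈ cls j (sw ω) (k + 2) (lv k 1 (1 + 0)) | FixN (k + 2 + j) γ}.ncard =
      cX j (sw ω) (k + 2) := by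
    refine hall 1 (1 + 0) (1 :: List.replicate k 0) (0 :: List.replicate k 0) (by simp) ?_
      (by simp) ?_
    · rw [lv_top (by simp)]; decide
    · rw [lv_top (by simp)]; decide
  have c11 : {γ ∈ cls j (sw ω) (k + 2) (lv k 1 (1 + 1)) | FixN (k + 2 + j) γ}.ncard = 0 := by
    rw [Set.ncard_eq_zero ((finite_cls _ _ _ _).subset (fun _ h => h.1))]
    rw [Set.eq_empty_iff_forall_notMem]
    rintro γ ⟨h1, h2⟩
    refine no_fix (n := k + 1) (by omega) (by omega) h1 (fun w hw => ?_) h2
    cases w with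
    | nil => simp at hw
    | cons i w =>
      rw [List.length_cons] at hw
      rw [lv_top (by omega)]
      clear h1 h2 hall key hsub
      revert i
      decide
  rw [c00, c01, c10, c11]
  ring

end StepA

section StepC

variable {j : ℕ} {ω : ℕ → Bool} {k : ℕ}

/-- portraits which are constant on level `k` and vanish above -/
def Zc (j : ℕ) (ω : ℕ → Bool) (k : ℕ) : Set Po :=
  {γ | Supp (k + 1 + j) γ ∧ Vv j ω (k + 1) γ ∧
    ∃ e : Fin 2, ∀ w : List (Fin 2), w.length < k + 1 → γ w = cst k e w}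

lemma finite_Zc (j : ℕ) (ω : ℕ → Bool) (k : ℕ) : (Zc j ω k).Finite :=
  (finite_supp (k + 1 + j)).subset (fun _ h => h.1)

lemma Zc_split (e : Fin 2) : {γ ∈ Zc j ω k | γ (List.replicate k 0) = e} =
    cls j ω (k + 1) (cst k e) := by
  ext γ
  constructor
  · rintro ⟨⟨h1, h2, f, h3⟩, h4⟩
    have h4' : γ (List.replicate k 0) = e := h4
    rw [h3 _ (by rw [List.length_replicate]; omega), cst_apply, List.length_replicate,
      if_pos rfl] at h4'
    rw [h4'] at h3
    exact ⟨h1, h2, h3⟩
  · rintro ⟨h1, h2, h3⟩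
    refine ⟨⟨h1, h2, e, h3⟩, ?_⟩
    show γ (List.replicate k 0) = e
    rw [h3 _ (by rw [List.length_replicate]; omega), cst_apply, List.length_replicate,
      if_pos rfl]

lemma cst_zero_eq : cls j ω (k + 1) (cst k 0) = cls j ω (k + 1) zp :=
  cls_congr (fun w _ => by rw [cst_apply]; split <;> rfl)

lemma ncard_Zc : (Zc j ω k).ncard = 2 * cX j ω (k + 1) := by
  rw [ncard_split (finite_Zc j ω k) (List.replicate k 0), Zc_split, Zc_split, cst_zero_eq]
  unfold cX cst
  rw [ncard_cls]
  ring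

lemma ncard_Zc_fix : {γ ∈ Zc j ω k | FixN (k + 1 + j) γ}.ncard = cF j ω (k + 1) := by
  have key : ∀ e : Fin 2,
      {γ ∈ {γ ∈ Zc j ω k | FixN (k + 1 + j) γ} | γ (List.replicate k 0) = e} =
      {γ ∈ cls j ω (k + 1) (cst k e) | FixN (k + 1 + j) γ} := by
    intro e
    rw [← Zc_split e]
    ext γ
    constructor
    · rintro ⟨⟨h1, h2⟩, h3⟩
      exact ⟨⟨h1, h3⟩, h2⟩
    · rintro ⟨⟨h1, h3⟩, h2⟩
      exact ⟨⟨h1, h2⟩, h3⟩
  rw [ncard_split ((finite_Zc j ω k).subset (fun _ h => h.1)) (List.replicate k 0), key, key,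
    cst_zero_eq]
  have c1 : {γ ∈ cls j ω (k + 1) (cst k 1) | FixN (k + 1 + j) γ}.ncard = 0 := by
    rw [Set.ncard_eq_zero ((finite_cls _ _ _ _).subset (fun _ h => h.1))]
    rw [Set.eq_empty_iff_forall_notMem]
    rintro γ ⟨h1, h2⟩
    refine no_fix (n := k) (by omega) (by omega) h1 (fun w hw => ?_) h2
    rw [cst_apply, if_pos hw]
    decide
  rw [c1, add_zero]
  rfl

/-- pairs of portraits below a root with bit zero -/
def pr (p : Po × Po) : Po := node 0 (fun i => if i = 0 then p.1 else p.2)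

lemma ncard_sq (A : Set Po) : {β : Po | β [] = 0 ∧ ∀ i, sec β i ∈ A}.ncard = A.ncard ^ 2 := by
  have h1 : {β : Po | β [] = 0 ∧ ∀ i, sec β i ∈ A} = pr '' (A ×ˢ A) := by
    ext β
    constructor
    · rintro ⟨h0, h⟩
      refine ⟨(sec β 0, sec β 1), ⟨h 0, h 1⟩, ?_⟩
      funext w
      cases w with
      | nil => exact h0.symm
      | cons i w =>
        show (if i = 0 then sec β 0 else sec β 1) w = sec β i w
        have hi : i = 0 ∨ i = 1 := by
          clear h
          revert i
          decide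
        rcases hi with rfl | rfl
        · rfl
        · rfl
    · rintro ⟨p, ⟨hp1, hp2⟩, rfl⟩
      refine ⟨rfl, fun i => ?_⟩
      show (if i = 0 then p.1 else p.2) ∈ A
      split
      · exact hp1
      · exact hp2
  have h2 : Function.Injective pr := by
    rintro ⟨a, b⟩ ⟨c, d⟩ h
    have e1 : a = c := congrArg (fun β => sec β 0) h
    have e2 : b = d := congrArg (fun β => sec β 1) h
    rw [e1, e2]
  rw [h1, Set.ncard_image_of_injective _ h2, Set.ncard_prod, sq]

lemma clsC (h0 : ω 0 = false) : cls (j + 1) ω (k + 1) zp =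
    {β : Po | β [] = 0 ∧ ∀ i, sec β i ∈ Zc j (sw ω) k} := by
  ext β
  constructor
  · rintro ⟨h1, h2, h3⟩
    rw [Vv_false h0] at h2
    refine ⟨h3 [] (by simp), fun i => ⟨fun w hw => ?_, h2.2 i, ?_⟩⟩
    · exact h1 (i :: w) (by rw [List.length_cons]; omega)
    · have h4 := low_affine h2.1 h3
      refine ⟨β (List.replicate (k + 1) 0) +
        i * (β (List.replicate (k + 1) 0) + β (1 :: List.replicate k 0)), fun w hw => ?_⟩
      show β (i :: w) = _
      rw [h4 _ (by rw [List.length_cons]; omega), cst_apply]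
      split
      · next h5 => rw [lv_top h5]
      · next h5 => rw [lv_low (by rw [List.length_cons]; omega)]
  · rintro ⟨h1, h2⟩
    choose h3 h4 f h5 using h2
    have h6 : ∀ w : List (Fin 2), w.length < k + 2 → β w = lv k (f 0) (f 0 + f 1) w := by
      intro w hw
      cases w with
      | nil =>
        rw [lv_low (by simp)]
        exact h1
      | cons i w =>
        rw [List.length_cons] at hw
        have h7 := h5 i w (by omega)
        rw [sec_apply, cst_apply] at h7
        rw [h7]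
        split
        · next h8 =>
          rw [lv_top h8]
          have hi : i = 0 ∨ i = 1 := by
            clear h7
            revert i
            decide
          rcases hi with rfl | rfl
          · rw [zero_mul, add_zero]
          · generalize f 0 = x
            generalize f 1 = y
            revert x y
            decide
        · next h8 => rw [lv_low (by rw [List.length_cons]; omega)]
    refine ⟨fun w hw => ?_, ?_, fun w hw => ?_⟩
    · cases w with
      | nil => exact h1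
      | cons i w =>
        rw [List.length_cons] at hw
        exact h3 i w (by omega)
    · rw [Vv_false h0]
      exact ⟨(Aff.aff (k + 2) _ _).congr h6, h4⟩
    · rw [h6 w (by omega), lv_low hw]

lemma cX_C (h0 : ω 0 = false) : cX (j + 1) ω (k + 1) = (2 * cX j (sw ω) (k + 1)) ^ 2 := by
  rw [cX, clsC h0, ncard_sq, ncard_Zc]

lemma cF_C (h0 : ω 0 = false) : cF (j + 1) ω (k + 1) +
    (2 * cX j (sw ω) (k + 1) - cF j (sw ω) (k + 1)) ^ 2 = (2 * cX j (sw ω) (k + 1)) ^ 2 := by
  have h1 : {β ∈ cls (j + 1) ω (k + 1) zp | ¬FixN (k + 1 + (j + 1)) β} =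
      {β : Po | β [] = 0 ∧ ∀ i, sec β i ∈ {γ ∈ Zc j (sw ω) k | ¬FixN (k + 1 + j) γ}} := by
    rw [clsC h0]
    ext β
    have e1 : k + 1 + (j + 1) = (k + 1 + j) + 1 := by omega
    rw [e1]
    constructor
    · rintro ⟨⟨h2, h3⟩, h4⟩
      rw [fixN_succ] at h4
      exact ⟨h2, fun i => ⟨h3 i, fun h5 => h4 ⟨h2, i, h5⟩⟩⟩
    · rintro ⟨h2, h3⟩
      refine ⟨⟨h2, fun i => (h3 i).1⟩, fun h4 => ?_⟩
      rw [fixN_succ] at h4
      obtain ⟨_, i, hi⟩ := h4
      exact (h3 i).2 hi
  have h2 : ∀ (S : Set Po) (P : Po → Prop), S.Finite →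
      {β ∈ S | P β}.ncard + {β ∈ S | ¬P β}.ncard = S.ncard := by
    intro S P hS
    have h3 := Set.ncard_inter_add_ncard_sdiff_eq_ncard S {β | P β} hS
    rw [← h3]
    congr 2
  have h3 := h2 (cls (j + 1) ω (k + 1) zp) (FixN (k + 1 + (j + 1))) (finite_cls _ _ _ _)
  have h4 := h2 (Zc j (sw ω) k) (FixN (k + 1 + j)) (finite_Zc _ _ _)
  rw [h1, ncard_sq] at h3
  rw [ncard_Zc_fix, ncard_Zc] at h4
  have h5 : {γ ∈ Zc j (sw ω) k | ¬FixN (k + 1 + j) γ}.ncard =
      2 * cX j (sw ω) (k + 1) - cF j (sw ω) (k + 1) := by omega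
  rw [h5] at h3
  have h6 := cX_C (j := j) (k := k) h0
  unfold cX at h6
  rw [h6] at h3
  exact h3

end StepC

section Main

lemma cls_zero (ω : ℕ → Bool) (k : ℕ) : cls 0 ω (k + 1) zp = {zp} := by
  ext γ
  rw [Set.mem_singleton_iff]
  constructor
  · rintro ⟨h1, _, h3⟩
    funext w
    rcases Nat.lt_or_ge w.length (k + 1) with h4 | h4
    · exact h3 w h4
    · exact h1 w (by omega)
  · rintro rfl
    refine ⟨fun _ _ => rfl, ?_, fun _ _ => rfl⟩
    refine ⟨fun _ => 0, fun _ => 0, fun w _ => ?_⟩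
    rw [aff_const (fun _ _ => rfl)]

lemma cF_le (j : ℕ) (ω : ℕ → Bool) (m : ℕ) : cF j ω m ≤ cX j ω m :=
  Set.ncard_le_ncard (fun _ h => h.1) (finite_cls _ _ _ _)

theorem count_pv (j : ℕ) (ω : ℕ → Bool) (k : ℕ) :
    0 < cX j ω (k + 1) ∧ (cF j ω (k + 1) : ℝ) = pv j ω * cX j ω (k + 1) := by
  induction j generalizing ω k with
  | zero =>
    have h1 : cX 0 ω (k + 1) = 1 := by
      unfold cX
      rw [cls_zero, Set.ncard_singleton]
    have h2 : cF 0 ω (k + 1) = 1 := by
      unfold cF
      rw [cls_zero]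
      have : {γ ∈ ({zp} : Set Po) | FixN (k + 1 + 0) γ} = {zp} := by
        ext γ
        constructor
        · exact fun h => h.1
        · rintro rfl
          exact ⟨rfl, List.replicate (k + 1) 0, by simp, act_zp _⟩
      rw [this, Set.ncard_singleton]
    rw [h1, h2]
    refine ⟨one_pos, ?_⟩
    rw [pv]
    norm_num
  | succ j ih =>
    rcases Bool.eq_false_or_eq_true (ω 0) with h0 | h0
    · obtain ⟨h1, h2⟩ := ih (sw ω) (k + 1)
      rw [cX_A h0, cF_A h0]
      refine ⟨Nat.mul_pos (by norm_num) h1, ?_⟩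
      rw [pv, if_pos h0]
      push_cast
      rw [h2]
      ring
    · obtain ⟨h1, h2⟩ := ih (sw ω) k
      have h3 := cF_C (j := j) (k := k) h0
      have hle := cF_le j (sw ω) (k + 1)
      rw [cX_C h0]
      refine ⟨by positivity, ?_⟩
      have h4 : (cF (j + 1) ω (k + 1) : ℝ) +
          (2 * (cX j (sw ω) (k + 1) : ℝ) - cF j (sw ω) (k + 1)) ^ 2 =
          (2 * (cX j (sw ω) (k + 1) : ℝ)) ^ 2 := by
        have h5 : ((2 * cX j (sw ω) (k + 1) - cF j (sw ω) (k + 1) : ℕ) : ℝ) =
            2 * (cX j (sw ω) (k + 1) : ℝ) - cF j (sw ω) (k + 1) := by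
          rw [Nat.cast_sub (by omega)]
          push_cast
          ring
        rw [← h5]
        exact_mod_cast h3
      rw [pv, if_neg (by rw [h0]; exact Bool.false_ne_true)]
      push_cast
      rw [h2] at h4
      show (cF (j + 1) ω (k + 1) : ℝ) = (pv j (sw ω) - pv j (sw ω) ^ 2 / 4) * _
      linear_combination h4

end Main

end Pool.Agent.Helper84.Fpp
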