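import Mathlib

set_option autoImplicit false

/-!
# A quadratic inequality for sets of leaves of a regular rooted tree
-/

namespace Pool.Agent.Helper84.Fpp

open Finset

variable {d : ℕ}

/-- the height of the meet of two words of the same length -/
def ht : List (Fin d) → List (Fin d) → ℕ
  | a :: u, b :: v => if a = b then ht u v else u.length + 1
  | _, _ => 0

lemma ht_cons_self (a : Fin d) (u v : List (Fin d)) : ht (a :: u) (a :: v) = ht u v := by
  simp [ht]

lemma ht_cons_ne {a b : Fin d} (h : a ≠ b) (u v : List (Fin d)) :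
    ht (a :: u) (b :: v) = u.length + 1 := by
  simp [ht, h]

lemma ht_self (u : List (Fin d)) : ht u u = 0 := by
  induction u with
  | nil => rfl
  | cons a u ih => rw [ht_cons_self, ih]

lemma ht_le {u v : List (Fin d)} : ht u v ≤ u.length := by
  induction u generalizing v with
  | nil => simp [ht]
  | cons a u ih =>
    cases v with
    | nil => simp [ht]
    | cons b v =>
      by_cases h : a = b
      · subst h
        rw [ht_cons_self]
        exact ih.trans (by simp)
      · rw [ht_cons_ne h]
        simp

lemma ht_le_iff {n : ℕ} {u v : List (Fin d)} (hu : u.length = n) (hv : v.length = n) {m : ℕ}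
    (hm : m ≤ n) : ht u v ≤ m ↔ u.take (n - m) = v.take (n - m) := by
  induction n generalizing u v m with
  | zero =>
    rw [List.length_eq_zero_iff] at hu hv
    subst hu hv
    simp [ht]
  | succ n ih =>
    obtain ⟨a, u, rfl⟩ := List.exists_cons_of_length_eq_add_one hu
    obtain ⟨b, v, rfl⟩ := List.exists_cons_of_length_eq_add_one hv
    simp only [List.length_cons, Nat.add_right_cancel_iff] at hu hv
    rcases Nat.lt_or_ge n m with h | h
    · have : m = n + 1 := by omega
      subst this
      simp only [Nat.sub_self, List.take_zero, iff_true]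
      refine ht_le.trans ?_
      simp [hu]
    · have e : n + 1 - m = (n - m) + 1 := by omega
      rw [e, List.take_succ_cons, List.take_succ_cons]
      by_cases hab : a = b
      · subst hab
        rw [ht_cons_self, ih hu hv h]
        simp
      · rw [ht_cons_ne hab, hu]
        constructor
        · intro h'; omega
        · intro h'
          rw [List.cons.injEq] at h'
          exact absurd h'.1 hab

lemma ht_eq_zero_iff {u v : List (Fin d)} (h : u.length = v.length) : ht u v = 0 ↔ u = v := by
  have := ht_le_iff (n := v.length) h rfl (Nat.zero_le _)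
  rw [Nat.le_zero, Nat.sub_zero, List.take_length, List.take_of_length_le h.le] at this
  exact this

lemma ht_comm {u v : List (Fin d)} (h : u.length = v.length) : ht u v = ht v u := by
  induction u generalizing v with
  | nil =>
    rw [List.length_nil, eq_comm, List.length_eq_zero_iff] at h
    subst h; rfl
  | cons a u ih =>
    cases v with
    | nil => simp at h
    | cons b v =>
      simp only [List.length_cons, Nat.add_right_cancel_iff] at h
      by_cases hab : a = b
      · subst hab
        rw [ht_cons_self, ht_cons_self, ih h]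
      · rw [ht_cons_ne hab, ht_cons_ne (Ne.symm hab), h]

/-- the weights `c 0 = 0`, `c h = d ^ (1 - 2 h)` -/
noncomputable def cw (d h : ℕ) : ℝ := if h = 0 then 0 else d / ((d : ℝ) ^ 2) ^ h

lemma cw_nonneg (d h : ℕ) : 0 ≤ cw d h := by
  unfold cw
  split_ifs
  · exact le_rfl
  · positivity

lemma cw_zero : cw d 0 = 0 := by simp [cw]

lemma cw_succ (h : ℕ) : cw d (h + 1) = d / ((d : ℝ) ^ 2) ^ (h + 1) := by simp [cw]

/-- the quadratic form -/
noncomputable def QF (L : Finset (List (Fin d))) : ℝ := ∑ u ∈ L, ∑ v ∈ L, cw d (ht u v)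

/-- the part of `L` below the letter `i` -/
noncomputable def sb (L : Finset (List (Fin d))) (i : Fin d) : Finset (List (Fin d)) :=
  L.preimage (List.cons i) (List.cons_injective.injOn)

lemma mem_sb {L : Finset (List (Fin d))} {i : Fin d} {w : List (Fin d)} :
    w ∈ sb L i ↔ i :: w ∈ L := by
  simp [sb]

lemma sum_sb {L : Finset (List (Fin d))} {n : ℕ} (hL : ∀ w ∈ L, w.length = n + 1)
    (f : List (Fin d) → ℝ) : ∑ u ∈ L, f u = ∑ i : Fin d, ∑ w ∈ sb L i, f (i :: w) := by
  rw [Finset.sum_sigma']
  symm
  refine Finset.sum_bij (fun p _ => p.1 :: p.2) ?_ ?_ ?_ ?_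
  · rintro ⟨i, w⟩ h
    rw [Finset.mem_sigma] at h
    exact mem_sb.mp h.2
  · rintro ⟨i, w⟩ _ ⟨j, z⟩ _ h
    simp only [List.cons.injEq] at h
    obtain ⟨rfl, rfl⟩ := h
    rfl
  · intro u hu
    obtain ⟨a, u, rfl⟩ := List.exists_cons_of_length_eq_add_one (hL u hu)
    exact ⟨⟨a, u⟩, by rw [Finset.mem_sigma]; exact ⟨mem_univ _, mem_sb.mpr hu⟩, rfl⟩
  · rintro ⟨i, w⟩ _
    rfl

lemma card_sb {L : Finset (List (Fin d))} {n : ℕ} (hL : ∀ w ∈ L, w.length = n + 1) :
    (L.card : ℝ) = ∑ i : Fin d, ((sb L i).card : ℝ) := by
  have := sum_sb hL (fun _ => 1)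
  simpa using this

lemma sb_length {L : Finset (List (Fin d))} {n : ℕ} (hL : ∀ w ∈ L, w.length = n + 1) (i : Fin d) :
    ∀ w ∈ sb L i, w.length = n := by
  intro w hw
  have := hL _ (mem_sb.mp hw)
  simpa using this

/-- the recursion for the form -/
lemma QF_sb {L : Finset (List (Fin d))} {n : ℕ} (hL : ∀ w ∈ L, w.length = n + 1) :
    QF L = ∑ i : Fin d, QF (sb L i) +
      cw d (n + 1) * ∑ i : Fin d, ∑ j ∈ univ.erase i, ((sb L i).card : ℝ) * (sb L j).card := by
  unfold QF
  rw [sum_sb hL]
  rw [mul_sum, ← sum_add_distrib]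
  refine sum_congr rfl fun i _ => ?_
  have h1 : ∀ w ∈ sb L i, ∑ v ∈ L, cw d (ht (i :: w) v) =
      ∑ v ∈ sb L i, cw d (ht w v) + cw d (n + 1) * ∑ j ∈ univ.erase i, ((sb L j).card : ℝ) := by
    intro w hw
    rw [sum_sb hL, ← Finset.add_sum_erase univ _ (mem_univ i)]
    congr 1
    · refine sum_congr rfl fun v _ => ?_
      rw [ht_cons_self]
    · rw [mul_sum]
      refine sum_congr rfl fun j hj => ?_
      have hji : i ≠ j := fun h => (Finset.mem_erase.mp hj).1 h.symm
      rw [sum_congr rfl (fun v _ => by rw [ht_cons_ne hji, sb_length hL i w hw])]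
      rw [sum_const, nsmul_eq_mul, mul_comm]
  rw [sum_congr rfl h1, sum_add_distrib, sum_const, nsmul_eq_mul, mul_sum, mul_sum, mul_sum]
  congr 1
  refine sum_congr rfl fun j _ => ?_
  ring

lemma card_le_pow {L : Finset (List (Fin d))} {n : ℕ} (hL : ∀ w ∈ L, w.length = n) :
    (L.card : ℝ) ≤ (d : ℝ) ^ n := by
  induction n generalizing L with
  | zero =>
    have : L ⊆ {[]} := by
      intro w hw
      rw [Finset.mem_singleton]
      exact List.length_eq_zero_iff.mp (hL w hw)
    have := Finset.card_le_card this
    rw [Finset.card_singleton] at this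
    rw [pow_zero]
    exact_mod_cast this
  | succ n ih =>
    rw [card_sb hL]
    calc ∑ i : Fin d, ((sb L i).card : ℝ) ≤ ∑ _i : Fin d, (d : ℝ) ^ n :=
          sum_le_sum fun i _ => ih (sb_length hL i)
      _ = (d : ℝ) ^ (n + 1) := by
          rw [sum_const, card_univ, Fintype.card_fin, nsmul_eq_mul, pow_succ, mul_comm]

/-- the pointwise inequality -/
theorem form_ineq {L : Finset (List (Fin d))} {n : ℕ} (hL : ∀ w ∈ L, w.length = n)
    (hne : L.Nonempty) : 1 + QF L ≤ (L.card : ℝ) := by
  induction n generalizing L with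
  | zero =>
    have hsub : L ⊆ {[]} := by
      intro w hw
      rw [Finset.mem_singleton]
      exact List.length_eq_zero_iff.mp (hL w hw)
    have : L = {[]} := (Finset.subset_singleton_iff.mp hsub).resolve_left hne.ne_empty
    subst this
    simp [QF, ht, cw]
  | succ n ih =>
    rw [card_sb hL, QF_sb hL]
    -- the nonempty parts
    set K : Finset (Fin d) := univ.filter (fun i => (sb L i).Nonempty) with hK
    have hd : 0 < d := by
      obtain ⟨w, hw⟩ := hne
      obtain ⟨a, u, rfl⟩ := List.exists_cons_of_length_eq_add_one (hL w hw)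
      exact Fin.pos a
    have hdR : (0 : ℝ) < d := by exact_mod_cast hd
    have hKne : K.Nonempty := by
      obtain ⟨w, hw⟩ := hne
      obtain ⟨a, u, rfl⟩ := List.exists_cons_of_length_eq_add_one (hL w hw)
      exact ⟨a, by rw [hK, mem_filter]; exact ⟨mem_univ _, ⟨u, mem_sb.mpr hw⟩⟩⟩
    have hKd : (K.card : ℝ) ≤ d := by
      have := Finset.card_le_univ K
      rw [Fintype.card_fin] at this
      exact_mod_cast this
    have hK1 : (1 : ℝ) ≤ K.card := by
      have := card_pos.mpr hKne
      exact_mod_cast this
    have h0 : ∀ i, i ∉ K → sb L i = ∅ := by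
      intro i hi
      rw [hK, mem_filter] at hi
      push Not at hi
      exact hi (mem_univ _)
    have h1 : ∀ i, (if i ∈ K then (1 : ℝ) else 0) + QF (sb L i) ≤ ((sb L i).card : ℝ) := by
      intro i
      by_cases hi : i ∈ K
      · rw [if_pos hi]
        refine ih (sb_length hL i) ?_
        rw [hK, mem_filter] at hi
        exact hi.2
      · rw [if_neg hi, h0 i hi]
        simp [QF]
    have h2 : ∑ i : Fin d, ∑ j ∈ univ.erase i, ((sb L i).card : ℝ) * (sb L j).card ≤
        ((d : ℝ) ^ n) ^ 2 * (K.card * (K.card - 1)) := by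
      have hterm : ∀ i j, ((sb L i).card : ℝ) * (sb L j).card ≤
          (if i ∈ K then (1 : ℝ) else 0) * (if j ∈ K then (1 : ℝ) else 0) * ((d : ℝ) ^ n) ^ 2 := by
        intro i j
        by_cases hi : i ∈ K
        · by_cases hj : j ∈ K
          · rw [if_pos hi, if_pos hj, one_mul, one_mul, pow_two]
            exact mul_le_mul (card_le_pow (sb_length hL i)) (card_le_pow (sb_length hL j))
              (by positivity) (by positivity)
          · rw [h0 j hj, if_neg hj]; simp
        · rw [h0 i hi, if_neg hi]; simp
      calc ∑ i : Fin d, ∑ j ∈ univ.erase i, ((sb L i).card : ℝ) * (sb L j).card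
          ≤ ∑ i : Fin d, ∑ j ∈ univ.erase i,
            (if i ∈ K then (1 : ℝ) else 0) * (if j ∈ K then (1 : ℝ) else 0) * ((d : ℝ) ^ n) ^ 2 :=
            sum_le_sum fun i _ => sum_le_sum fun j _ => hterm i j
        _ = ((d : ℝ) ^ n) ^ 2 * (K.card * (K.card - 1)) := by
            have e1 : ∀ i : Fin d, ∑ j ∈ univ.erase i,
                (if i ∈ K then (1 : ℝ) else 0) * (if j ∈ K then (1 : ℝ) else 0) *
                  ((d : ℝ) ^ n) ^ 2 =
                (if i ∈ K then (1 : ℝ) else 0) * (((d : ℝ) ^ n) ^ 2 * (K.card - 1)) := by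
              intro i
              by_cases hi : i ∈ K
              · rw [if_pos hi]
                have e2 : ∑ j ∈ univ.erase i, (if j ∈ K then (1 : ℝ) else 0) = K.card - 1 := by
                  have := Finset.add_sum_erase univ (fun j => if j ∈ K then (1 : ℝ) else 0)
                    (mem_univ i)
                  rw [if_pos hi, sum_ite_mem univ, univ_inter, sum_const, nsmul_eq_mul,
                    mul_one] at this
                  linarith
                rw [one_mul, ← e2, mul_sum]
                refine sum_congr rfl fun j _ => ?_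
                ring
              · simp [if_neg hi]
            rw [sum_congr rfl (fun i _ => e1 i), ← sum_mul]
            rw [sum_ite_mem, univ_inter, sum_const, nsmul_eq_mul]
            ring
    have h3 : cw d (n + 1) * (((d : ℝ) ^ n) ^ 2 * (K.card * (K.card - 1))) ≤ K.card - 1 := by
      rw [cw_succ]
      have e : (d : ℝ) / ((d : ℝ) ^ 2) ^ (n + 1) * (((d : ℝ) ^ n) ^ 2 * (K.card * (K.card - 1))) =
          (K.card / d) * (K.card - 1) := by
        field_simp
        ring
      rw [e]
      have : (K.card : ℝ) / d ≤ 1 := by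
        rw [div_le_one hdR]; exact hKd
      nlinarith
    have h4 := mul_le_mul_of_nonneg_left h2 (cw_nonneg d (n + 1))
    have h5 : ∑ i : Fin d, ((if i ∈ K then (1 : ℝ) else 0) + QF (sb L i)) ≤
        ∑ i : Fin d, ((sb L i).card : ℝ) := sum_le_sum fun i _ => h1 i
    rw [sum_add_distrib, sum_ite_mem, univ_inter, sum_const, nsmul_eq_mul, mul_one] at h5
    linarith

/-- the case of equality: the whole level -/
theorem form_full (n : ℕ) (hd : 0 < d) {L : Finset (List (Fin d))}
    (hL : ∀ w, w ∈ L ↔ w.length = n) :
    (L.card : ℝ) = (d : ℝ) ^ n ∧ 1 + QF L = (L.card : ℝ) := by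
  induction n generalizing L with
  | zero =>
    have : L = {[]} := by
      ext w
      rw [hL, Finset.mem_singleton, List.length_eq_zero_iff]
    subst this
    simp [QF, ht, cw]
  | succ n ih =>
    have hL' : ∀ w ∈ L, w.length = n + 1 := fun w hw => (hL w).mp hw
    have hsb : ∀ i w, w ∈ sb L i ↔ w.length = n := by
      intro i w
      rw [mem_sb, hL]
      simp
    have h1 := fun i => ih (hsb i)
    have hdR : (0 : ℝ) < d := by exact_mod_cast hd
    have hc : (L.card : ℝ) = (d : ℝ) ^ (n + 1) := by
      rw [card_sb hL', sum_congr rfl (fun i _ => (h1 i).1)]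
      rw [sum_const, card_univ, Fintype.card_fin, nsmul_eq_mul, pow_succ, mul_comm]
    refine ⟨hc, ?_⟩
    rw [hc, QF_sb hL']
    have h2 : ∑ i : Fin d, QF (sb L i) = d * ((d : ℝ) ^ n - 1) := by
      rw [sum_congr rfl (fun i _ => show QF (sb L i) = (d : ℝ) ^ n - 1 by
        linarith [(h1 i).1, (h1 i).2])]
      rw [sum_const, card_univ, Fintype.card_fin, nsmul_eq_mul]
    have h3 : ∑ i : Fin d, ∑ j ∈ univ.erase i, ((sb L i).card : ℝ) * (sb L j).card =
        d * ((d - 1) * ((d : ℝ) ^ n * (d : ℝ) ^ n)) := by
      have : ∀ i : Fin d, ∑ j ∈ univ.erase i, ((sb L i).card : ℝ) * (sb L j).card =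
          (d - 1) * ((d : ℝ) ^ n * (d : ℝ) ^ n) := by
        intro i
        rw [sum_congr rfl (fun j _ => by rw [(h1 i).1, (h1 j).1])]
        rw [sum_const, card_erase_of_mem (mem_univ i), card_univ, Fintype.card_fin, nsmul_eq_mul,
          Nat.cast_sub hd, Nat.cast_one]
      rw [sum_congr rfl (fun i _ => this i), sum_const, card_univ, Fintype.card_fin, nsmul_eq_mul]
    rw [h2, h3, cw_succ]
    field_simp
    ring

/-- the case of equality: balls -/
theorem form_ball (n : ℕ) {k : ℕ} (hk : k ≤ n) (x : List (Fin d)) (hx : x.length = n)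
    {L : Finset (List (Fin d))} (hL : ∀ w, w ∈ L ↔ w.length = n ∧ ht w x ≤ k) :
    1 + QF L = (L.card : ℝ) := by
  induction n generalizing L x with
  | zero =>
    have : L = {[]} := by
      ext w
      rw [hL, Finset.mem_singleton, List.length_eq_zero_iff]
      constructor
      · exact fun h => h.1
      · rintro rfl
        exact ⟨rfl, by simp [ht]⟩
    subst this
    simp [QF, ht, cw]
  | succ n ih =>
    have hd : 0 < d := by
      obtain ⟨a, u, rfl⟩ := List.exists_cons_of_length_eq_add_one hx
      exact Fin.pos a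
    rcases Nat.lt_or_ge n k with h | h
    · have hkn : k = n + 1 := by omega
      refine (form_full (n + 1) hd ?_).2
      intro w
      rw [hL]
      constructor
      · exact fun h => h.1
      · intro hw
        refine ⟨hw, ?_⟩
        rw [hkn]
        exact ht_le.trans hw.le
    · obtain ⟨a, x, rfl⟩ := List.exists_cons_of_length_eq_add_one hx
      simp only [List.length_cons, Nat.add_right_cancel_iff] at hx
      have hL' : ∀ w ∈ L, w.length = n + 1 := fun w hw => ((hL w).mp hw).1
      have hsa : ∀ w, w ∈ sb L a ↔ w.length = n ∧ ht w x ≤ k := by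
        intro w
        rw [mem_sb, hL, ht_cons_self]
        simp
      have hsi : ∀ i, i ≠ a → sb L i = ∅ := by
        intro i hi
        rw [Finset.eq_empty_iff_forall_notMem]
        intro w hw
        rw [mem_sb, hL, ht_cons_ne hi] at hw
        have h1 := hw.1
        simp only [List.length_cons, Nat.add_right_cancel_iff] at h1
        omega
      have hcard : (L.card : ℝ) = (sb L a).card := by
        rw [card_sb hL', Finset.sum_eq_single a]
        · intro b _ hb
          rw [hsi b hb]; simp
        · intro h; exact absurd (mem_univ a) h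
      have hQ : QF L = QF (sb L a) := by
        rw [QF_sb hL', Finset.sum_eq_single a]
        · have : ∑ i : Fin d, ∑ j ∈ univ.erase i, ((sb L i).card : ℝ) * (sb L j).card = 0 := by
            refine sum_eq_zero fun i _ => sum_eq_zero fun j hj => ?_
            by_cases hi : i = a
            · have hj' : j ≠ a := by
                rw [← hi]; exact (Finset.mem_erase.mp hj).1
              rw [hsi j hj']; simp
            · rw [hsi i hi]; simp
          rw [this, mul_zero, add_zero]
        · intro b _ hb
          rw [hsi b hb]; simp [QF]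
        · intro h; exact absurd (mem_univ a) h
      rw [hcard, hQ]
      exact ih h x hx hsa

end Pool.Agent.Helper84.Fpp
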