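import Mathlib

set_option autoImplicit false

/-!
# Portraits of automorphisms of the binary rooted tree: definitions
-/

namespace Pool.Agent.Helper84.Fpp

/-- portraits: one bit at every vertex -/
abbrev Po : Type := List (Fin 2) → Fin 2

/-- section of a portrait -/
def sec (β : Po) (i : Fin 2) : Po := fun w => β (i :: w)

/-- the action on words -/
def act : Po → List (Fin 2) → List (Fin 2)
  | _, [] => []
  | β, i :: w => (i + β []) :: act (sec β i) w

/-- composition of portraits -/
def comp : Po → Po → Po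
  | β, γ, [] => β [] + γ []
  | β, γ, i :: w => comp (sec β (i + γ [])) (sec γ i) w

/-- inverse portrait -/
def pinv : Po → Po
  | β, [] => β []
  | β, i :: w => pinv (sec β (i + β [])) w

/-- the sequence `n ↦ b (n + 1) + i * α n` -/
def sh (b : ℕ → Fin 2) (i : Fin 2) (α : ℕ → Fin 2) : ℕ → Fin 2 := fun n => b (n + 1) + i * α n

/-- affine portraits: the portrait of `x ↦ (1 + t α) x + b` over `F_2[[t]]` -/
def aff (α : ℕ → Fin 2) : (ℕ → Fin 2) → Po
  | b, [] => b 0
  | b, i :: w => aff α (sh b i α) w

/-- `β` is affine to depth `k` -/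
def Aff (k : ℕ) (β : Po) : Prop := ∃ α b : ℕ → Fin 2, ∀ w : List (Fin 2), w.length < k →
  β w = aff α b w

/-- the constrained portraits of depth `m + j` attached to the word `ω` -/
def Vv : ℕ → (ℕ → Bool) → ℕ → Po → Prop
  | 0, _, m, β => Aff m β
  | j + 1, ω, m, β => if ω 0 then Vv j (fun n => ω (n + 1)) (m + 1) β
      else Aff (m + 1) β ∧ ∀ i, Vv j (fun n => ω (n + 1)) m (sec β i)

/-- `β` vanishes at all words of length at least `N` -/
def Supp (N : ℕ) (β : Po) : Prop := ∀ w : List (Fin 2), N ≤ w.length → β w = 0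

/-- `β` vanishes at all words of length less than `m` -/
def Low (m : ℕ) (β : Po) : Prop := ∀ w : List (Fin 2), w.length < m → β w = 0

/-- `β` fixes a vertex of level `N` -/
def FixN (N : ℕ) (β : Po) : Prop := ∃ x : List (Fin 2), x.length = N ∧ act β x = x

/-- the proportion of elements with a fixed vertex -/
noncomputable def pv : ℕ → (ℕ → Bool) → ℝ
  | 0, _ => 1
  | j + 1, ω => if ω 0 then 1 / 2 + pv j (fun n => ω (n + 1)) / 4
      else pv j (fun n => ω (n + 1)) - (pv j (fun n => ω (n + 1))) ^ 2 / 4

end Pool.Agent.Helper84.Fpp
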