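import Pool.Agent.Helper84.Fpp.PoDefs

set_option autoImplicit false

/-!
# Portraits: action, composition, affine portraits
-/

namespace Pool.Agent.Helper84.Fpp

lemma f2_eq_zero_iff (i a : Fin 2) : i + a = i ↔ a = 0 := by revert i a; decide

lemma f2_two (a : Fin 2) : a + a = 0 := by revert a; decide

lemma f2_cancel (a b : Fin 2) : a + b + b = a := by revert a b; decide

section Action

lemma sec_apply (β : Po) (i : Fin 2) (w : List (Fin 2)) : sec β i w = β (i :: w) := rfl

lemma act_nil (β : Po) : act β [] = [] := rfl

lemma act_cons (β : Po) (i : Fin 2) (w : List (Fin 2)) :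
    act β (i :: w) = (i + β []) :: act (sec β i) w := rfl

lemma act_length (β : Po) (w : List (Fin 2)) : (act β w).length = w.length := by
  induction w generalizing β with
  | nil => rfl
  | cons i w ih => rw [act_cons, List.length_cons, List.length_cons, ih]

lemma act_dropLast (β : Po) (w : List (Fin 2)) : act β w.dropLast = (act β w).dropLast := by
  induction w generalizing β with
  | nil => rfl
  | cons i w ih =>
    cases w with
    | nil => rfl
    | cons j w =>
      rw [List.dropLast_cons_of_ne_nil (by simp), act_cons, ih, act_cons β i (j :: w),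
        List.dropLast_cons_of_ne_nil (by rw [act_cons]; simp)]

lemma comp_nil (β γ : Po) : comp β γ [] = β [] + γ [] := rfl

lemma sec_comp (β γ : Po) (i : Fin 2) :
    sec (comp β γ) i = comp (sec β (i + γ [])) (sec γ i) := rfl

lemma act_comp (β γ : Po) (w : List (Fin 2)) : act (comp β γ) w = act β (act γ w) := by
  induction w generalizing β γ with
  | nil => rfl
  | cons i w ih =>
    rw [act_cons, act_cons, act_cons, sec_comp, ih, comp_nil]
    congr 1
    generalize β [] = a
    generalize γ [] = b
    revert i a b
    decide

lemma pinv_nil (β : Po) : pinv β [] = β [] := rfl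

lemma sec_pinv (β : Po) (i : Fin 2) : sec (pinv β) i = pinv (sec β (i + β [])) := rfl

lemma act_pinv_act (β : Po) (w : List (Fin 2)) : act (pinv β) (act β w) = w := by
  induction w generalizing β with
  | nil => rfl
  | cons i w ih =>
    rw [act_cons, act_cons, sec_pinv, pinv_nil, f2_cancel, ih]

lemma act_act_pinv (β : Po) (w : List (Fin 2)) : act β (act (pinv β) w) = w := by
  induction w generalizing β with
  | nil => rfl
  | cons i w ih =>
    rw [act_cons, act_cons, sec_pinv, pinv_nil, f2_cancel, ih]

lemma act_fix_cons {β : Po} {i : Fin 2} {w : List (Fin 2)} :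
    act β (i :: w) = i :: w ↔ β [] = 0 ∧ act (sec β i) w = w := by
  rw [act_cons, List.cons_eq_cons, f2_eq_zero_iff]

lemma act_congr {n : ℕ} {β γ : Po} (h : ∀ w : List (Fin 2), w.length < n → β w = γ w)
    {x : List (Fin 2)} (hx : x.length ≤ n) : act β x = act γ x := by
  induction x generalizing β γ n with
  | nil => rfl
  | cons i w ih =>
    rw [List.length_cons] at hx
    rw [act_cons, act_cons, h [] (by simp; omega)]
    congr 1
    refine ih (n := n - 1) (fun v hv => ?_) (by omega)
    exact h (i :: v) (by rw [List.length_cons]; omega)

lemma act_inj {n : ℕ} {β γ : Po} (h : ∀ x : List (Fin 2), x.length = n → act β x = act γ x)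
    {w : List (Fin 2)} (hw : w.length < n) : β w = γ w := by
  induction w generalizing β γ n with
  | nil =>
    obtain ⟨k, rfl⟩ : ∃ k, n = k + 1 := ⟨n - 1, by simp at hw; omega⟩
    have h1 := h (List.replicate (k + 1) 0) (by simp)
    rw [List.replicate_succ, act_cons, act_cons, List.cons_eq_cons] at h1
    have h2 := h1.1
    generalize β [] = a at h2 ⊢
    generalize γ [] = b at h2 ⊢
    revert a b
    decide
  | cons i w ih =>
    rw [List.length_cons] at hw
    obtain ⟨k, rfl⟩ : ∃ k, n = k + 1 := ⟨n - 1, by omega⟩
    refine ih (β := sec β i) (γ := sec γ i) (n := k) (fun x hx => ?_) (by omega)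
    have h1 := h (i :: x) (by rw [List.length_cons, hx])
    rw [act_cons, act_cons, List.cons_eq_cons] at h1
    exact h1.2

lemma comp_congr {n : ℕ} {β β' γ γ' : Po} (h : ∀ w : List (Fin 2), w.length < n → β w = β' w)
    (h' : ∀ w : List (Fin 2), w.length < n → γ w = γ' w)
    {w : List (Fin 2)} (hw : w.length < n) : comp β γ w = comp β' γ' w := by
  induction w generalizing β β' γ γ' n with
  | nil => rw [comp_nil, comp_nil, h _ hw, h' _ hw]
  | cons i w ih =>
    rw [List.length_cons] at hw
    show sec (comp β γ) i w = sec (comp β' γ') i w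
    rw [sec_comp, sec_comp, h' [] (by simp; omega)]
    refine ih (n := n - 1) (fun v hv => ?_) (fun v hv => ?_) (by omega)
    · exact h _ (by rw [List.length_cons]; omega)
    · exact h' _ (by rw [List.length_cons]; omega)

lemma pinv_congr {n : ℕ} {β β' : Po} (h : ∀ w : List (Fin 2), w.length < n → β w = β' w)
    {w : List (Fin 2)} (hw : w.length < n) : pinv β w = pinv β' w := by
  induction w generalizing β β' n with
  | nil => rw [pinv_nil, pinv_nil, h _ hw]
  | cons i w ih =>
    rw [List.length_cons] at hw
    show sec (pinv β) i w = sec (pinv β') i w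
    rw [sec_pinv, sec_pinv, h [] (by simp; omega)]
    refine ih (n := n - 1) (fun v hv => ?_) (by omega)
    exact h _ (by rw [List.length_cons]; omega)

end Action

section Affine

lemma aff_nil (α b : ℕ → Fin 2) : aff α b [] = b 0 := rfl

lemma sec_aff (α b : ℕ → Fin 2) (i : Fin 2) : sec (aff α b) i = aff α (sh b i α) := rfl

lemma aff_cons (α b : ℕ → Fin 2) (i : Fin 2) (w : List (Fin 2)) :
    aff α b (i :: w) = aff α (sh b i α) w := rfl

/-- multiplication by `1 + t α` -/
def mulA (α : ℕ → Fin 2) : ℕ → (ℕ → Fin 2) → Fin 2
  | 0, b => b 0
  | n + 1, b => mulA α n (fun k => b (k + 1)) + b 0 * α n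

lemma mulA_lin (α : ℕ → Fin 2) (n : ℕ) (i : Fin 2) (b c : ℕ → Fin 2) :
    mulA α n (fun k => b k + i * c k) = mulA α n b + i * mulA α n c := by
  induction n generalizing b c with
  | zero => rfl
  | succ n ih =>
    simp only [mulA]
    rw [ih (fun k => b (k + 1)) (fun k => c (k + 1))]
    generalize mulA α n (fun k => b (k + 1)) = x
    generalize mulA α n (fun k => c (k + 1)) = y
    generalize b 0 = z
    generalize c 0 = t
    generalize α n = s
    clear ih
    revert i x y z t s
    decide

/-- division by `1 + t α` -/
def divA (α : ℕ → Fin 2) : ℕ → (ℕ → Fin 2) → Fin 2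
  | 0, c => c 0
  | n + 1, c => divA α n (fun k => c (k + 1) + c 0 * α k)

lemma divA_lin (α : ℕ → Fin 2) (n : ℕ) (i : Fin 2) (b c : ℕ → Fin 2) :
    divA α n (fun k => b k + i * c k) = divA α n b + i * divA α n c := by
  induction n generalizing b c with
  | zero => rfl
  | succ n ih =>
    simp only [divA]
    rw [← ih (fun k => b (k + 1) + b 0 * α k) (fun k => c (k + 1) + c 0 * α k)]
    congr 1
    funext k
    generalize b (k + 1) = x
    generalize c (k + 1) = y
    generalize b 0 = z
    generalize c 0 = t
    generalize α k = s
    clear ih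
    revert i x y z t s
    decide

lemma comp_aff (α α' b b' : ℕ → Fin 2) (w : List (Fin 2)) : comp (aff α b) (aff α' b') w =
    aff (fun n => α n + mulA α n α') (fun n => b n + mulA α n b') w := by
  induction w generalizing b b' with
  | nil => rfl
  | cons i w ih =>
    show sec (comp (aff α b) (aff α' b')) i w = _
    rw [sec_comp, sec_aff, sec_aff, ih, aff_cons]
    congr 2
    funext n
    rw [aff_nil]
    have e : mulA α n (sh b' i α') = mulA α n (fun k => b' (k + 1)) + i * mulA α n α' :=
      mulA_lin α n i (fun k => b' (k + 1)) α'
    simp only [sh, mulA] at e ⊢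
    rw [e]
    clear e
    generalize mulA α n (fun k => b' (k + 1)) = x
    generalize mulA α n α' = y
    generalize b (n + 1) = z
    generalize b' 0 = t
    generalize α n = s
    clear ih
    revert i x y z t s
    decide

lemma pinv_aff (α b : ℕ → Fin 2) (w : List (Fin 2)) : pinv (aff α b) w =
    aff (fun n => divA α n α) (fun n => divA α n b) w := by
  induction w generalizing b with
  | nil => rfl
  | cons i w ih =>
    show sec (pinv (aff α b)) i w = _
    rw [sec_pinv, sec_aff, ih, aff_cons]
    congr 2
    funext n
    rw [aff_nil]
    simp only [sh, divA]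
    rw [← divA_lin α n i (fun k => b (k + 1) + b 0 * α k) α]
    congr 1
    funext k
    simp only [sh]
    generalize b (k + 1) = z
    generalize b 0 = t
    generalize α k = s
    clear ih
    revert i z t s
    decide

/-- affine portraits add up pointwise -/
lemma aff_add (α α' b b' : ℕ → Fin 2) (w : List (Fin 2)) : aff α b w + aff α' b' w =
    aff (fun n => α n + α' n) (fun n => b n + b' n) w := by
  induction w generalizing b b' with
  | nil => rfl
  | cons i w ih =>
    rw [aff_cons, aff_cons, aff_cons, ih]
    congr 2
    funext n
    simp only [sh]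
    generalize b (n + 1) = x
    generalize b' (n + 1) = y
    generalize α n = z
    generalize α' n = t
    clear ih
    revert i x y z t
    decide

/-- affine portraits with vanishing first coefficients of the linear part are constant on
levels -/
lemma aff_const {α b : ℕ → Fin 2} {w : List (Fin 2)} (h : ∀ k, k < w.length → α k = 0) :
    aff α b w = b w.length := by
  induction w generalizing b with
  | nil => rfl
  | cons i w ih =>
    rw [aff_cons, ih (fun k hk => h k (by rw [List.length_cons]; omega))]
    simp only [sh]
    rw [h _ (by rw [List.length_cons]; omega), List.length_cons, mul_zero, add_zero]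

/-- the top coefficient multiplies the first letter -/
lemma aff_top {α b : ℕ → Fin 2} {i : Fin 2} {w : List (Fin 2)} (h : ∀ k, k < w.length → α k = 0) :
    aff α b (i :: w) = b (w.length + 1) + i * α w.length := by
  rw [aff_cons, aff_const h]
  rfl

end Affine

end Pool.Agent.Helper84.Fpp
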