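import Pool.Agent.Helper84.Fpp.Portrait

set_option autoImplicit false

/-!
# The constrained portraits form groups, and fixed vertices persist
-/

namespace Pool.Agent.Helper84.Fpp

section AffClosure

lemma Aff.congr {k : ℕ} {β γ : Po} (hβ : Aff k β)
    (h : ∀ w : List (Fin 2), w.length < k → γ w = β w) : Aff k γ := by
  obtain ⟨α, b, hb⟩ := hβ
  exact ⟨α, b, fun w hw => (h w hw).trans (hb w hw)⟩

lemma Aff.mono {k l : ℕ} (hkl : k ≤ l) {β : Po} (h : Aff l β) : Aff k β := by
  obtain ⟨α, b, hb⟩ := h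
  exact ⟨α, b, fun w hw => hb w (by omega)⟩

lemma Aff.aff (k : ℕ) (α b : ℕ → Fin 2) : Aff k (aff α b) := ⟨α, b, fun _ _ => rfl⟩

lemma Aff.comp {k : ℕ} {β γ : Po} (hβ : Aff k β) (hγ : Aff k γ) : Aff k (comp β γ) := by
  obtain ⟨α, b, hb⟩ := hβ
  obtain ⟨α', b', hb'⟩ := hγ
  refine ⟨fun n => α n + mulA α n α', fun n => b n + mulA α n b', fun w hw => ?_⟩
  rw [comp_congr hb hb' hw, comp_aff]

lemma Aff.pinv {k : ℕ} {β : Po} (hβ : Aff k β) : Aff k (pinv β) := by
  obtain ⟨α, b, hb⟩ := hβ
  refine ⟨fun n => divA α n α, fun n => divA α n b, fun w hw => ?_⟩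
  rw [pinv_congr hb hw, pinv_aff]

lemma Aff.add {k : ℕ} {β γ : Po} (hβ : Aff k β) (hγ : Aff k γ) : Aff k (fun w => β w + γ w) := by
  obtain ⟨α, b, hb⟩ := hβ
  obtain ⟨α', b', hb'⟩ := hγ
  refine ⟨fun n => α n + α' n, fun n => b n + b' n, fun w hw => ?_⟩
  show β w + γ w = _
  rw [hb w hw, hb' w hw, aff_add]

lemma Aff.sec {k : ℕ} {β : Po} (hβ : Aff (k + 1) β) (i : Fin 2) : Aff k (sec β i) := by
  obtain ⟨α, b, hb⟩ := hβ
  refine ⟨α, sh b i α, fun w hw => ?_⟩
  show β (i :: w) = _
  rw [hb _ (by rw [List.length_cons]; omega)]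
  rfl

end AffClosure

section VClosure

/-- the shifted word -/
abbrev sw (ω : ℕ → Bool) : ℕ → Bool := fun n => ω (n + 1)

lemma Vv_zero (ω : ℕ → Bool) (m : ℕ) (β : Po) : Vv 0 ω m β ↔ Aff m β := Iff.rfl

lemma Vv_true {j : ℕ} {ω : ℕ → Bool} (h : ω 0 = true) {m : ℕ} {β : Po} :
    Vv (j + 1) ω m β ↔ Vv j (sw ω) (m + 1) β := by
  rw [Vv, if_pos h]

lemma Vv_false {j : ℕ} {ω : ℕ → Bool} (h : ω 0 = false) {m : ℕ} {β : Po} :
    Vv (j + 1) ω m β ↔ Aff (m + 1) β ∧ ∀ i, Vv j (sw ω) m (sec β i) := by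
  rw [Vv, if_neg (by rw [h]; exact Bool.false_ne_true)]

lemma Vv.congr {j : ℕ} {ω : ℕ → Bool} {m : ℕ} {β γ : Po} (hβ : Vv j ω m β)
    (h : ∀ w : List (Fin 2), w.length < m + j → γ w = β w) : Vv j ω m γ := by
  induction j generalizing ω m β γ with
  | zero => exact Aff.congr hβ h
  | succ j ih =>
    rcases Bool.eq_false_or_eq_true (ω 0) with h0 | h0
    · rw [Vv_true h0] at hβ ⊢
      exact ih hβ (fun w hw => h w (by omega))
    · rw [Vv_false h0] at hβ ⊢
      refine ⟨hβ.1.congr (fun w hw => h w (by omega)), fun i => ih (hβ.2 i) (fun w hw => ?_)⟩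
      exact h (i :: w) (by rw [List.length_cons]; omega)

lemma Vv_aff (j : ℕ) (ω : ℕ → Bool) (m : ℕ) (α b : ℕ → Fin 2) : Vv j ω m (aff α b) := by
  induction j generalizing ω m b with
  | zero => exact Aff.aff m α b
  | succ j ih =>
    rcases Bool.eq_false_or_eq_true (ω 0) with h0 | h0
    · rw [Vv_true h0]
      exact ih _ _ _
    · rw [Vv_false h0]
      exact ⟨Aff.aff _ α b, fun i => ih _ _ _⟩

lemma Vv.add {j : ℕ} {ω : ℕ → Bool} {m : ℕ} {β γ : Po} (hβ : Vv j ω m β) (hγ : Vv j ω m γ) :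
    Vv j ω m (fun w => β w + γ w) := by
  induction j generalizing ω m β γ with
  | zero => exact Aff.add hβ hγ
  | succ j ih =>
    rcases Bool.eq_false_or_eq_true (ω 0) with h0 | h0
    · rw [Vv_true h0] at hβ hγ ⊢
      exact ih hβ hγ
    · rw [Vv_false h0] at hβ hγ ⊢
      exact ⟨hβ.1.add hγ.1, fun i => ih (hβ.2 i) (hγ.2 i)⟩

lemma Vv.comp {j : ℕ} {ω : ℕ → Bool} {m : ℕ} {β γ : Po} (hβ : Vv j ω m β) (hγ : Vv j ω m γ) :
    Vv j ω m (comp β γ) := by
  induction j generalizing ω m β γ with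
  | zero => exact Aff.comp hβ hγ
  | succ j ih =>
    rcases Bool.eq_false_or_eq_true (ω 0) with h0 | h0
    · rw [Vv_true h0] at hβ hγ ⊢
      exact ih hβ hγ
    · rw [Vv_false h0] at hβ hγ ⊢
      refine ⟨hβ.1.comp hγ.1, fun i => ?_⟩
      rw [sec_comp]
      exact ih (hβ.2 _) (hγ.2 i)

lemma Vv.pinv {j : ℕ} {ω : ℕ → Bool} {m : ℕ} {β : Po} (hβ : Vv j ω m β) :
    Vv j ω m (pinv β) := by
  induction j generalizing ω m β with
  | zero => exact Aff.pinv hβ
  | succ j ih =>
    rcases Bool.eq_false_or_eq_true (ω 0) with h0 | h0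
    · rw [Vv_true h0] at hβ ⊢
      exact ih hβ
    · rw [Vv_false h0] at hβ ⊢
      refine ⟨hβ.1.pinv, fun i => ?_⟩
      rw [sec_pinv]
      exact ih (hβ.2 _)

lemma Vv.prev {j : ℕ} {ω : ℕ → Bool} {m : ℕ} {β : Po} (h : Vv (j + 1) ω m β) : Vv j ω m β := by
  induction j generalizing ω m β with
  | zero =>
    rcases Bool.eq_false_or_eq_true (ω 0) with h0 | h0
    · rw [Vv_true h0] at h
      exact Aff.mono (Nat.le_succ m) h
    · rw [Vv_false h0] at h
      exact Aff.mono (Nat.le_succ m) h.1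
  | succ j ih =>
    rcases Bool.eq_false_or_eq_true (ω 0) with h0 | h0
    · rw [Vv_true h0] at h ⊢
      exact ih h
    · rw [Vv_false h0] at h ⊢
      exact ⟨h.1, fun i => ih (h.2 i)⟩

lemma Vv.aff {j : ℕ} {ω : ℕ → Bool} {m : ℕ} {β : Po} (h : Vv j ω m β) : Aff m β := by
  induction j with
  | zero => exact h
  | succ j ih => exact ih h.prev

lemma Vv.mono {j l : ℕ} (hjl : j ≤ l) {ω : ℕ → Bool} {m : ℕ} {β : Po} (h : Vv l ω m β) :
    Vv j ω m β := by
  induction l with
  | zero =>
    have : j = 0 := by omega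
    rw [this]
    exact h
  | succ l ih =>
    rcases Nat.lt_or_ge l j with h1 | h1
    · have : j = l + 1 := by omega
      rw [this]
      exact h
    · exact ih h1 h.prev

/-- put two portraits below a root bit -/
def node (e : Fin 2) (f : Fin 2 → Po) : Po
  | [] => e
  | i :: w => f i w

lemma node_nil (e : Fin 2) (f : Fin 2 → Po) : node e f [] = e := rfl

lemma sec_node (e : Fin 2) (f : Fin 2 → Po) (i : Fin 2) : sec (node e f) i = f i := rfl

lemma Vv.extend {j : ℕ} {ω : ℕ → Bool} {m : ℕ} {β : Po} (h : Vv j ω m β) :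
    ∃ γ : Po, (∀ w : List (Fin 2), w.length < m + j → γ w = β w) ∧ Vv (j + 1) ω m γ := by
  induction j generalizing ω m β with
  | zero =>
    obtain ⟨α, b, hb⟩ := h
    exact ⟨Fpp.aff α b, fun w hw => (hb w hw).symm, Vv_aff _ _ _ _ _⟩
  | succ j ih =>
    rcases Bool.eq_false_or_eq_true (ω 0) with h0 | h0
    · rw [Vv_true h0] at h
      obtain ⟨γ, h1, h2⟩ := ih h
      refine ⟨γ, fun w hw => h1 w (by omega), ?_⟩
      rw [Vv_true h0]
      exact h2
    · rw [Vv_false h0] at h
      choose f h1 h2 using fun i => ih (h.2 i)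
      have h3 : ∀ w : List (Fin 2), w.length < m + (j + 1) → node (β []) f w = β w := by
        intro w hw
        cases w with
        | nil => rfl
        | cons i w =>
          show f i w = β (i :: w)
          rw [List.length_cons] at hw
          exact h1 i w (by omega)
      refine ⟨node (β []) f, h3, ?_⟩
      rw [Vv_false h0]
      exact ⟨h.1.congr (fun w hw => h3 w (by omega)), fun i => h2 i⟩

lemma Vv.extend_le {j l : ℕ} (hjl : j ≤ l) {ω : ℕ → Bool} {m : ℕ} {β : Po} (h : Vv j ω m β) :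
    ∃ γ : Po, (∀ w : List (Fin 2), w.length < m + j → γ w = β w) ∧ Vv l ω m γ := by
  induction l with
  | zero =>
    have : j = 0 := by omega
    subst this
    exact ⟨β, fun _ _ => rfl, h⟩
  | succ l ih =>
    rcases Nat.lt_or_ge l j with h1 | h1
    · have : j = l + 1 := by omega
      subst this
      exact ⟨β, fun _ _ => rfl, h⟩
    · obtain ⟨γ, h2, h3⟩ := ih h1
      obtain ⟨δ, h4, h5⟩ := h3.extend
      exact ⟨δ, fun w hw => (h4 w (by omega)).trans (h2 w hw), h5⟩

end VClosure

section Persist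

/-- fixing a word below an affine portrait whose linear part vanishes -/
lemma act_aff_fix {α b : ℕ → Fin 2} {v : List (Fin 2)} (h : ∀ k, k + 1 < v.length → α k = 0) :
    act (aff α b) v = v ↔ ∀ n, n < v.length → b n = 0 := by
  induction v generalizing b with
  | nil => simp [act_nil]
  | cons i v ih =>
    rw [act_fix_cons, sec_aff, ih (fun k hk => h k (by rw [List.length_cons]; omega)), aff_nil]
    constructor
    · rintro ⟨h0, h1⟩ n hn
      rw [List.length_cons] at hn
      cases n with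
      | zero => exact h0
      | succ n =>
        have h2 := h1 n (by omega)
        simp only [sh] at h2
        rcases Nat.lt_or_ge n (v.length - 1 + 1) with h3 | h3
        · rw [h n (by rw [List.length_cons]; omega), mul_zero, add_zero] at h2
          exact h2
        · omega
    · intro h1
      refine ⟨h1 0 (by simp), fun n hn => ?_⟩
      simp only [sh]
      rw [h1 (n + 1) (by rw [List.length_cons]; omega),
        h n (by rw [List.length_cons]; omega), mul_zero, add_zero]

/-- a fixed word of an affine portrait extends if the linear part does not vanish -/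
lemma aff_extend {α : ℕ → Fin 2} {k : ℕ} (hk : α k = 1) (hl : ∀ l, l < k → α l = 0)
    (u : List (Fin 2)) (b : ℕ → Fin 2) (c : Fin 2) (v : List (Fin 2)) (hv : v.length = k)
    (h : act (aff α b) (u ++ c :: v) = u ++ c :: v) :
    ∃ y : List (Fin 2), y.length = u.length + k + 2 ∧ act (aff α b) y = y := by
  induction u generalizing b with
  | nil =>
    rw [List.nil_append, act_fix_cons, sec_aff,
      act_aff_fix (fun l hl' => hl l (by omega))] at h
    refine ⟨b (k + 1) :: (v ++ [0]), by simp [hv], ?_⟩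
    rw [act_fix_cons, sec_aff, act_aff_fix (fun l hl' => hl l (by
      rw [List.length_append, List.length_singleton] at hl'; omega))]
    refine ⟨h.1, fun n hn => ?_⟩
    rw [List.length_append, List.length_singleton] at hn
    simp only [sh] at h ⊢
    rcases Nat.lt_or_ge n k with h1 | h1
    · have h2 := h.2 n (by omega)
      rw [hl n h1, mul_zero, add_zero] at h2 ⊢
      exact h2
    · have : n = k := by omega
      rw [this, hk, mul_one, f2_two]
  | cons i u ih =>
    rw [List.cons_append, act_fix_cons, sec_aff] at h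
    obtain ⟨y, hy1, hy2⟩ := ih _ h.2
    refine ⟨i :: y, ?_, ?_⟩
    · rw [List.length_cons, hy1, List.length_cons]
      omega
    · rw [act_fix_cons, sec_aff]
      exact ⟨h.1, hy2⟩

/-- the first non-vanishing coefficient of the linear part -/
lemma exists_first {m : ℕ} {β : Po} (hβ : Aff (m + 1) β)
    (hne : ∃ w : List (Fin 2), w.length < m ∧ β w ≠ 0)
    (hfix : ∃ x : List (Fin 2), x.length = m ∧ act β x = x) :
    ∃ (α b : ℕ → Fin 2) (k : ℕ), (∀ w : List (Fin 2), w.length < m + 1 → β w = aff α b w) ∧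
      k + 1 < m ∧ α k = 1 ∧ ∀ l, l < k → α l = 0 := by
  classical
  obtain ⟨α, b, hb⟩ := hβ
  obtain ⟨w, hw, hw0⟩ := hne
  obtain ⟨x, hx, hx'⟩ := hfix
  have h1 : ∃ k, α k ≠ 0 ∧ k + 1 < m := by
    by_contra hcon
    push Not at hcon
    have h2 : ∀ k, k + 1 < m → α k = 0 := by
      intro k hk
      by_contra h3
      have := hcon k h3
      omega
    rw [act_congr hb (by omega), act_aff_fix (fun k hk => h2 k (by omega))] at hx'
    apply hw0
    rw [hb w (by omega), aff_const (fun k hk => h2 k (by omega)), hx' _ (by omega)]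
  have h2 : ∃ k, α k ≠ 0 := ⟨h1.choose, h1.choose_spec.1⟩
  refine ⟨α, b, Nat.find h2, hb, ?_, ?_, ?_⟩
  · have := Nat.find_min' h2 h1.choose_spec.1
    have := h1.choose_spec.2
    omega
  · have := Nat.find_spec h2
    generalize α (Nat.find h2) = a at this ⊢
    revert a
    decide
  · intro l hl
    have := Nat.find_min h2 hl
    push Not at this
    exact this

lemma affine_step {m : ℕ} {β : Po} (hβ : Aff (m + 1) β)
    (hne : ∃ w : List (Fin 2), w.length < m ∧ β w ≠ 0)
    (hfix : ∃ x : List (Fin 2), x.length = m ∧ act β x = x) :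
    ∃ x : List (Fin 2), x.length = m + 1 ∧ act β x = x := by
  obtain ⟨α, b, k, hb, hk, hk1, hl⟩ := exists_first hβ hne hfix
  obtain ⟨x, hx, hx'⟩ := hfix
  have hx2 := hx'
  rw [act_congr hb (by omega)] at hx2
  have h1 : x = x.take (m - 1 - k) ++ x.drop (m - 1 - k) := (List.take_append_drop _ _).symm
  have h2 : (x.drop (m - 1 - k)).length = k + 1 := by
    rw [List.length_drop]
    omega
  have h3 : (x.take (m - 1 - k)).length = m - 1 - k := by
    rw [List.length_take]
    omega
  obtain ⟨c, v, hv⟩ : ∃ c v, x.drop (m - 1 - k) = c :: v := by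
    cases hd : x.drop (m - 1 - k) with
    | nil =>
      rw [hd] at h2
      simp at h2
    | cons c v => exact ⟨c, v, rfl⟩
  rw [hv] at h1 h2
  rw [List.length_cons] at h2
  rw [h1] at hx2
  obtain ⟨y, hy, hy'⟩ := aff_extend hk1 hl _ b c v (by omega) hx2
  refine ⟨y, by omega, ?_⟩
  rw [act_congr hb (by omega)]
  exact hy'

lemma affine_sec {m : ℕ} {β : Po} (hβ : Aff (m + 1) β)
    (hne : ∃ w : List (Fin 2), w.length < m ∧ β w ≠ 0)
    (hfix : ∃ x : List (Fin 2), x.length = m ∧ act β x = x) (i : Fin 2) :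
    ∃ w : List (Fin 2), w.length < m ∧ sec β i w ≠ 0 := by
  obtain ⟨α, b, k, hb, hk, hk1, hl⟩ := exists_first hβ hne hfix
  by_contra hcon
  push Not at hcon
  have h1 : ∀ c : Fin 2, sh b i α (k + 1) + c = 0 := by
    intro c
    have h2 := hcon (c :: List.replicate k 0) (by simp; omega)
    have h3 : sec β i (c :: List.replicate k 0) = aff α (sh b i α) (c :: List.replicate k 0) := by
      rw [sec_apply, hb _ (by simp; omega)]
      rfl
    rw [h3, aff_top (fun l hl' => hl l (by rw [List.length_replicate] at hl'; exact hl')),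
      List.length_replicate, hk1, mul_one] at h2
    exact h2
  have h2 := h1 0
  have h3 := h1 1
  generalize sh b i α (k + 1) = a at h2 h3
  revert a
  decide

/-- fixed vertices persist -/
theorem persist_fix {j : ℕ} {ω : ℕ → Bool} {m : ℕ} {β : Po} (h : Vv j ω m β)
    (hne : ∃ w : List (Fin 2), w.length < m ∧ β w ≠ 0) (hfix : FixN m β) : FixN (m + j) β := by
  induction j generalizing ω m β with
  | zero => exact hfix
  | succ j ih =>
    rcases Bool.eq_false_or_eq_true (ω 0) with h0 | h0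
    · rw [Vv_true h0] at h
      obtain ⟨w, hw, hw0⟩ := hne
      have h1 : FixN (m + 1) β := affine_step h.aff ⟨w, hw, hw0⟩ hfix
      have h2 := ih h ⟨w, by omega, hw0⟩ h1
      rw [show m + (j + 1) = m + 1 + j by omega]
      exact h2
    · rw [Vv_false h0] at h
      obtain ⟨x, hx, hx'⟩ := affine_step h.1 hne hfix
      cases x with
      | nil => simp at hx
      | cons i x =>
        rw [List.length_cons] at hx
        rw [act_fix_cons] at hx'
        obtain ⟨y, hy, hy'⟩ := ih (h.2 i) (affine_sec h.1 hne hfix i) ⟨x, by omega, hx'.2⟩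
        refine ⟨i :: y, by rw [List.length_cons]; omega, ?_⟩
        rw [act_fix_cons]
        exact ⟨hx'.1, hy'⟩

end Persist

end Pool.Agent.Helper84.Fpp
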